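import Mathlib

set_option autoImplicit false
open scoped Matrix

namespace Pool.Agent.Helper45.NC

open Matrix Finset

/-- the multiset of values of a finite family -/
def ms {ι X : Type*} [Fintype ι] (a : ι → X) : Multiset X := (Finset.univ : Finset ι).val.map a

/-- `diagonal a` is a compression of `diagonal b` -/
def Dil {ι κ : Type*} [Fintype ι] [Fintype κ] [DecidableEq ι] [DecidableEq κ]
    (a : ι → ℂ) (b : κ → ℂ) : Prop :=
  ∃ W : Matrix κ ι ℂ, Wᴴ * W = 1 ∧ Wᴴ * diagonal b * W = diagonal a

/-- interlacing, expressed with counting functions -/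
def Interlaces (T S : Multiset ℝ) : Prop :=
  T.card = S.card + 1 ∧ ∀ t : ℝ,
    (S.filter (fun s => t < s)).card ≤ (T.filter (fun s => t < s)).card ∧
    (T.filter (fun s => t < s)).card ≤ (S.filter (fun s => t < s)).card + 1

section ms

variable {ι κ X Y : Type*} [Fintype ι] [Fintype κ]

theorem ms_card (a : ι → X) : (ms a).card = Fintype.card ι := by
  simp [ms]

theorem ms_equiv (e : ι ≃ κ) (a : κ → X) : ms (a ∘ e) = ms a := by
  unfold ms
  rw [← Multiset.map_map]
  congr 1
  have := Finset.map_univ_equiv e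
  rw [← this]
  simp

theorem ms_map (f : X → Y) (a : ι → X) : (ms a).map f = ms (f ∘ a) := by
  unfold ms
  rw [Multiset.map_map]

theorem ms_sum (a : ι → X) (b : κ → X) : ms (Sum.elim a b) = ms a + ms b := by
  unfold ms
  rw [← Finset.univ_disjSum_univ, Finset.val_disjSum]
  simp [Multiset.disjSum, Multiset.map_map]

theorem ms_unit (a : Unit → X) : ms a = {a ()} := by
  simp [ms]

theorem exists_ms (S : Multiset X) : ∃ a : Fin S.card → X, ms a = S := by
  induction S using Quotient.inductionOn with
  | h l =>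
    refine ⟨fun i => l.get (Fin.cast (by simp) i), ?_⟩
    have h1 : ms (fun i : Fin l.length => l.get i) = (l : Multiset X) := by
      unfold ms
      have := List.ofFn_get l
      conv_rhs => rw [← this]
      rw [← Fin.univ_val_map]
    have h2 := ms_equiv (finCongr (show Multiset.card (⟦l⟧ : Multiset X) = l.length by simp))
      (fun i : Fin l.length => l.get i)
    exact h2.trans h1

/-- two families with the same multiset of values differ by a bijection of the index types -/
theorem exists_equiv_of_ms_eq [DecidableEq X] (a : ι → X) (b : κ → X) (h : ms a = ms b) :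
    ∃ e : ι ≃ κ, b ∘ e = a := by
  classical
  have hc : ∀ x : X, Fintype.card {i // a i = x} = Fintype.card {j // b j = x} := by
    intro x
    have h1 : (ms a).count x = Fintype.card {i // a i = x} := by
      unfold ms
      rw [Multiset.count_map, Fintype.card_subtype]
      simp only [eq_comm]
      rfl
    have h2 : (ms b).count x = Fintype.card {i // b i = x} := by
      unfold ms
      rw [Multiset.count_map, Fintype.card_subtype]
      simp only [eq_comm]
      rfl
    rw [← h1, ← h2, h]
  have e : ∀ x : X, {i // a i = x} ≃ {j // b j = x} := fun x => Fintype.equivOfCardEq (hc x)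
  let E : ι ≃ κ := (Equiv.sigmaFiberEquiv a).symm.trans ((Equiv.sigmaCongrRight e).trans
    (Equiv.sigmaFiberEquiv b))
  refine ⟨E, ?_⟩
  funext i
  have : b (E i) = a i := by
    simp only [E, Equiv.trans_apply]
    have := (e (a i) ⟨i, rfl⟩).2
    simpa [Equiv.sigmaFiberEquiv] using this
  exact this

end ms

section Dil

variable {ι κ μ ι' κ' : Type*} [Fintype ι] [Fintype κ] [Fintype μ] [DecidableEq ι] [DecidableEq κ]
  [DecidableEq μ] [Fintype ι'] [Fintype κ'] [DecidableEq ι'] [DecidableEq κ']

theorem Dil.trans {a : ι → ℂ} {c : μ → ℂ} {b : κ → ℂ} (h1 : Dil a c) (h2 : Dil c b) :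
    Dil a b := by
  obtain ⟨W₁, h11, h12⟩ := h1
  obtain ⟨W₂, h21, h22⟩ := h2
  refine ⟨W₂ * W₁, ?_, ?_⟩
  · rw [conjTranspose_mul]
    calc W₁ᴴ * W₂ᴴ * (W₂ * W₁) = W₁ᴴ * (W₂ᴴ * W₂) * W₁ := by simp only [Matrix.mul_assoc]
      _ = 1 := by rw [h21, Matrix.mul_one, h11]
  · rw [conjTranspose_mul]
    calc W₁ᴴ * W₂ᴴ * diagonal b * (W₂ * W₁) = W₁ᴴ * (W₂ᴴ * diagonal b * W₂) * W₁ := by
          simp only [Matrix.mul_assoc]
      _ = diagonal a := by rw [h22, h12]

theorem Dil.sum {a : ι → ℂ} {b : κ → ℂ} {a' : ι' → ℂ} {b' : κ' → ℂ} (h : Dil a b)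
    (h' : Dil a' b') : Dil (Sum.elim a a') (Sum.elim b b') := by
  obtain ⟨W, h1, h2⟩ := h
  obtain ⟨W', h1', h2'⟩ := h'
  refine ⟨fromBlocks W 0 0 W', ?_, ?_⟩
  · rw [fromBlocks_conjTranspose, fromBlocks_multiply]
    simp [h1, h1']
  · rw [fromBlocks_conjTranspose, ← fromBlocks_diagonal, fromBlocks_multiply,
      fromBlocks_multiply, ← fromBlocks_diagonal]
    simp [h2, h2']

theorem Dil.of_equiv (e : ι ≃ κ) (b : κ → ℂ) : Dil (b ∘ e) b := by
  refine ⟨(1 : Matrix κ κ ℂ).submatrix id e, ?_, ?_⟩
  · ext i j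
    simp [Matrix.mul_apply, Matrix.one_apply]
  · ext i j
    rw [Matrix.mul_assoc, Matrix.mul_apply]
    simp only [conjTranspose_apply, submatrix_apply, id, diagonal_mul, Matrix.one_apply]
    by_cases h : i = j
    · subst h
      simp
    · have h' : e i ≠ e j := fun hh => h (e.injective hh)
      rw [diagonal_apply_ne _ h]
      apply Finset.sum_eq_zero
      intro x _
      by_cases hx : x = e i
      · subst hx; simp [h']
      · simp [hx]

theorem Dil.refl (b : κ → ℂ) : Dil b b := Dil.of_equiv (Equiv.refl κ) b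

/-- `Dil` only depends on the multisets of values -/
theorem Dil.congr {a : ι → ℂ} {b : κ → ℂ} {a' : ι' → ℂ} {b' : κ' → ℂ} (h : Dil a b)
    (ha : ms a' = ms a) (hb : ms b = ms b') : Dil a' b' := by
  obtain ⟨e, he⟩ := exists_equiv_of_ms_eq a' a ha
  obtain ⟨f, hf⟩ := exists_equiv_of_ms_eq b b' hb
  have h1 : Dil a' a := he ▸ Dil.of_equiv e a
  have h2 : Dil b b' := hf ▸ Dil.of_equiv f b'
  exact (h1.trans h).trans h2

end Dil

section Interlaces

theorem Interlaces.cancel {T S : Multiset ℝ} {c : ℝ} (h : Interlaces (c ::ₘ T) (c ::ₘ S)) :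
    Interlaces T S := by
  obtain ⟨h1, h2⟩ := h
  refine ⟨by simpa using h1, fun t => ?_⟩
  have := h2 t
  by_cases hc : t < c
  · rw [Multiset.filter_cons_of_pos (p := fun s => t < s) S hc,
      Multiset.filter_cons_of_pos (p := fun s => t < s) T hc, Multiset.card_cons,
      Multiset.card_cons] at this
    omega
  · rw [Multiset.filter_cons_of_neg (p := fun s => t < s) S hc,
      Multiset.filter_cons_of_neg (p := fun s => t < s) T hc] at this
    exact this

end Interlaces

end Pool.Agent.Helper45.NC
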