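import Mathlib
import Pool.Agent.Helper45.NC.Basic

set_option autoImplicit false
open scoped Matrix Polynomial

namespace Pool.Agent.Helper45.NC

open Matrix Finset Polynomial

/-- sign of a product over a multiset -/
theorem prod_sign (T : Multiset ℝ) (x : ℝ) (hx : x ∉ T) :
    0 < (-1) ^ ((T.filter (fun s => x < s)).card) * (T.map (fun s => x - s)).prod := by
  induction T using Multiset.induction_on with
  | empty => simp
  | cons a T ih =>
    have hxa : x ≠ a := fun h => hx (by rw [h]; exact Multiset.mem_cons_self a T)
    have hxT : x ∉ T := fun h => hx (Multiset.mem_cons_of_mem h)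
    have ih' := ih hxT
    rw [Multiset.map_cons, Multiset.prod_cons]
    by_cases h : x < a
    · rw [Multiset.filter_cons_of_pos (p := fun s => x < s) T h, Multiset.card_cons, pow_succ]
      have h1 : 0 < a - x := by linarith
      have := mul_pos h1 ih'
      nlinarith [this]
    · rw [Multiset.filter_cons_of_neg (p := fun s => x < s) T h]
      have h1 : 0 < x - a := by
        have : a < x := lt_of_le_of_ne (not_lt.1 h) (Ne.symm hxa)
        linarith
      have := mul_pos h1 ih'
      nlinarith [this]

/-- in the absence of common elements, interlacing forces distinctness and a strict count -/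
theorem interlaces_strict {ι : Type*} [DecidableEq ι] (s : ι → ℝ) (F : Finset ι) (T : Multiset ℝ)
    (h : Interlaces T (F.val.map s)) (i : ι) (hi : i ∈ F) (hT : s i ∉ T) :
    (T.filter (fun x => s i < x)).card = ((F.erase i).val.map s |>.filter (fun x => s i < x)).card + 1
    ∧ ∀ j ∈ F.erase i, s j ≠ s i := by
  classical
  -- a threshold just below `s i`
  obtain ⟨t, ht1, ht2⟩ : ∃ t : ℝ, t < s i ∧ ∀ x ∈ T, t < x → s i < x := by
    let A : Finset ℝ := insert (s i - 1) (T.toFinset.filter (fun x => x < s i))
    have hA : A.Nonempty := ⟨s i - 1, Finset.mem_insert_self _ _⟩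
    refine ⟨A.max' hA, ?_, ?_⟩
    · rw [Finset.max'_lt_iff]
      intro y hy
      rcases Finset.mem_insert.1 hy with h1 | h1
      · rw [h1]; linarith
      · exact (Finset.mem_filter.1 h1).2
    · intro x hx hlt
      by_contra hcon
      have hne : x ≠ s i := fun hh => hT (hh ▸ hx)
      have hlt' : x < s i := lt_of_le_of_ne (not_lt.1 hcon) hne
      have : x ∈ A := Finset.mem_insert_of_mem
        (Finset.mem_filter.2 ⟨Multiset.mem_toFinset.2 hx, hlt'⟩)
      exact absurd (Finset.le_max' A x this) (not_le.2 hlt)
  have hTt : T.filter (fun x => t < x) = T.filter (fun x => s i < x) := by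
    apply Multiset.filter_congr
    intro x hx
    exact ⟨fun h => ht2 x hx h, fun h => ht1.trans h⟩
  obtain ⟨hcard, hint⟩ := h
  have h1 := (hint t).1
  have h2 := (hint (s i)).2
  rw [hTt] at h1
  -- counts over `F`
  have hFerase : F.val.map s = s i ::ₘ (F.erase i).val.map s := by
    rw [← Multiset.map_cons, Finset.erase_val, Multiset.cons_erase hi]
  rw [hFerase] at h1 h2
  rw [Multiset.filter_cons_of_pos (p := fun x => t < x) _ ht1, Multiset.card_cons] at h1
  rw [Multiset.filter_cons_of_neg (p := fun x => s i < x) _ (lt_irrefl _)] at h2
  -- monotonicity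
  have h3 : (((F.erase i).val.map s).filter (fun x => s i < x)).card ≤
      (((F.erase i).val.map s).filter (fun x => t < x)).card := by
    apply Multiset.card_le_card
    apply Multiset.monotone_filter_right
    intro x hx
    exact ht1.trans hx
  have heq : (((F.erase i).val.map s).filter (fun x => s i < x)).card =
      (((F.erase i).val.map s).filter (fun x => t < x)).card := by omega
  refine ⟨by omega, ?_⟩
  intro j hj hcon
  have hle : ((F.erase i).val.map s).filter (fun x => s i < x) ≤
      ((F.erase i).val.map s).filter (fun x => t < x) := by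
    apply Multiset.monotone_filter_right
    intro x hx
    exact ht1.trans hx
  have := Multiset.eq_of_le_of_card_le hle (le_of_eq heq.symm)
  have hmem : s j ∈ ((F.erase i).val.map s).filter (fun x => t < x) := by
    rw [Multiset.mem_filter]
    exact ⟨Multiset.mem_map_of_mem s hj, by rw [hcon]; exact ht1⟩
  rw [← this, Multiset.mem_filter, hcon] at hmem
  exact lt_irrefl _ hmem.2

/-- Partial fraction form of interlacing. -/
theorem exists_arrow_poly {ι : Type*} [DecidableEq ι] (s : ι → ℝ) (F : Finset ι) :
    ∀ T : Multiset ℝ, Interlaces T (F.val.map s) →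
    ∃ (w : ι → ℝ) (r : ℝ), (∀ i, 0 ≤ w i) ∧
      (T.map (fun t => X - C t)).prod =
        (X - C r) * ∏ i ∈ F, (X - C (s i)) - ∑ i ∈ F, C (w i) * ∏ j ∈ F.erase i, (X - C (s j)) := by
  classical
  induction F using Finset.strongInduction with
  | H F ih =>
    intro T hT
    by_cases hcom : ∃ i ∈ F, s i ∈ T
    · obtain ⟨i, hi, hiT⟩ := hcom
      obtain ⟨T', rfl⟩ := Multiset.exists_cons_of_mem hiT
      have hFerase : F.val.map s = s i ::ₘ (F.erase i).val.map s := by
        rw [← Multiset.map_cons, Finset.erase_val, Multiset.cons_erase hi]
      rw [hFerase] at hT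
      obtain ⟨w, r, hw, hpoly⟩ := ih (F.erase i) (Finset.erase_ssubset hi) T' hT.cancel
      refine ⟨fun j => if j = i then 0 else w j, r, ?_, ?_⟩
      · intro j
        simp only []
        split_ifs
        · exact le_refl _
        · exact hw j
      · rw [Multiset.map_cons, Multiset.prod_cons, hpoly]
        rw [← Finset.mul_prod_erase F _ hi, ← Finset.add_sum_erase F _ hi]
        simp only [if_true, C_0, zero_mul, zero_add]
        rw [mul_sub, Finset.mul_sum]
        congr 1
        · ring
        · refine Finset.sum_congr rfl (fun j hj => ?_)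
          have hji : j ≠ i := (Finset.mem_erase.1 hj).1
          have hjF : j ∈ F := (Finset.mem_erase.1 hj).2
          rw [if_neg hji]
          have hmem : i ∈ F.erase j := Finset.mem_erase.2 ⟨Ne.symm hji, hi⟩
          rw [← Finset.mul_prod_erase (F.erase j) _ hmem, Finset.erase_right_comm]
          ring
    · push Not at hcom
      have hst := fun i (hi : i ∈ F) => interlaces_strict s F T hT i hi (hcom i hi)
      let χ : ℝ[X] := (T.map (fun t => X - C t)).prod
      have hχeval : ∀ x, χ.eval x = (T.map (fun t => x - t)).prod := by
        intro x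
        simp only [χ, eval_multiset_prod, Multiset.map_map]
        congr 1
        refine Multiset.map_congr rfl (fun t _ => ?_)
        simp
      let g : ι → ℝ := fun i => ∏ j ∈ F.erase i, (s i - s j)
      have hg : ∀ i ∈ F, g i ≠ 0 := by
        intro i hi
        exact Finset.prod_ne_zero_iff.2 (fun j hj => sub_ne_zero.2 (Ne.symm ((hst i hi).2 j hj)))
      let w : ι → ℝ := fun i => if i ∈ F then -(χ.eval (s i)) / g i else 0
      have hw : ∀ i, 0 ≤ w i := by
        intro i
        simp only [w]
        split_ifs with hi
        · -- sign analysis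
          have e1 := prod_sign T (s i) (hcom i hi)
          rw [← hχeval] at e1
          have hnot : s i ∉ (F.erase i).val.map s := by
            intro hmem
            obtain ⟨j, hj, hjs⟩ := Multiset.mem_map.1 hmem
            exact (hst i hi).2 j hj hjs
          have e2 := prod_sign ((F.erase i).val.map s) (s i) hnot
          rw [Multiset.map_map] at e2
          have e3 : (Multiset.map ((fun x => s i - x) ∘ s) (F.erase i).val).prod = g i := rfl
          rw [e3] at e2
          rw [(hst i hi).1, pow_succ] at e1
          set c : ℝ := (-1) ^ ((((F.erase i).val.map s).filter (fun x => s i < x)).card) with hc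
          have hc2 : c * c = 1 := by
            rw [hc, ← pow_add, ← two_mul, pow_mul]; simp
          -- `c * g > 0` and `-c * χ > 0`
          have e4 : 0 < (-(χ.eval (s i))) * g i := by
            have := mul_pos e1 e2
            nlinarith [this]
          have e5 := div_pos e4 (mul_self_pos.2 (hg i hi))
          have e6 : -(χ.eval (s i)) * g i / (g i * g i) = -(χ.eval (s i)) / g i := by
            have := hg i hi
            field_simp
          rw [e6] at e5
          exact e5.le
        · exact le_refl _
      -- the difference polynomial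
      let Q : ℝ[X] := ∏ i ∈ F, (X - C (s i))
      let D : ℝ[X] := χ - X * Q + ∑ i ∈ F, C (w i) * ∏ j ∈ F.erase i, (X - C (s j))
      have hQmonic : Q.Monic := monic_prod_of_monic _ _ (fun i _ => monic_X_sub_C _)
      have hQdeg : Q.natDegree = F.card := by
        simp only [Q]
        rw [natDegree_prod_of_monic _ _ (fun i _ => monic_X_sub_C _)]
        simp
      have hχmonic : χ.Monic := monic_multiset_prod_of_monic _ _ (fun i _ => monic_X_sub_C _)
      have hχdeg : χ.natDegree = F.card + 1 := by
        simp only [χ]
        rw [natDegree_multiset_prod_X_sub_C_eq_card, hT.1]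
        simp
      have hXQmonic : (X * Q).Monic := monic_X.mul hQmonic
      have hXQdeg : (X * Q).natDegree = F.card + 1 := by
        rw [natDegree_X_mul hQmonic.ne_zero, hQdeg]
      have hDdeg : D.degree ≤ F.card := by
        have d1 : (χ - X * Q).degree < ((F.card + 1 : ℕ) : WithBot ℕ) := by
          have := degree_sub_lt_left (p := χ) (q := X * Q) (by
            rw [degree_eq_natDegree hχmonic.ne_zero, degree_eq_natDegree hXQmonic.ne_zero,
              hχdeg, hXQdeg]) hχmonic.ne_zero (by rw [hχmonic.leadingCoeff, hXQmonic.leadingCoeff])
          rwa [degree_eq_natDegree hχmonic.ne_zero, hχdeg] at this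
        have d2 : (∑ i ∈ F, C (w i) * ∏ j ∈ F.erase i, (X - C (s j))).degree
            ≤ (F.card : WithBot ℕ) := by
          refine (degree_sum_le _ _).trans ?_
          refine Finset.sup_le (fun i hi => ?_)
          refine (degree_mul_le _ _).trans ?_
          have d3 : (∏ j ∈ F.erase i, (X - C (s j))).degree ≤ ((F.card - 1 : ℕ) : WithBot ℕ) := by
            rw [degree_prod]
            simp only [degree_X_sub_C, Finset.sum_const, Finset.card_erase_of_mem hi]
            simp
          have d4 : (C (w i)).degree ≤ 0 := degree_C_le
          calc (C (w i)).degree + (∏ j ∈ F.erase i, (X - C (s j))).degree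
              ≤ 0 + ((F.card - 1 : ℕ) : WithBot ℕ) := add_le_add d4 d3
            _ ≤ (F.card : WithBot ℕ) := by
                rw [zero_add]
                exact_mod_cast Nat.sub_le _ _
        refine (degree_add_le _ _).trans (max_le ?_ d2)
        by_cases h0 : χ - X * Q = 0
        · rw [h0, degree_zero]; exact bot_le
        · have := (natDegree_lt_iff_degree_lt h0).2 d1
          exact degree_le_of_natDegree_le (Nat.lt_succ_iff.1 this)
      have hDeval : ∀ i ∈ F, D.eval (s i) = 0 := by
        intro i hi
        simp only [D, eval_add, eval_sub, eval_mul, eval_X, eval_finsetSum, eval_C, eval_prod]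
        have q1 : Q.eval (s i) = 0 := by
          simp only [Q, eval_prod]
          exact Finset.prod_eq_zero hi (by simp)
        rw [q1, mul_zero, sub_zero]
        rw [Finset.sum_eq_single i]
        · simp only [w, if_pos hi]
          have := hg i hi
          have e : ∏ j ∈ F.erase i, (s i - s j) = g i := rfl
          rw [e]
          field_simp
          ring
        · intro j hj hji
          have : ∏ k ∈ F.erase j, (s i - s k) = 0 :=
            Finset.prod_eq_zero (Finset.mem_erase.2 ⟨Ne.symm hji, hi⟩) (by simp)
          rw [this, mul_zero]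
        · intro hni; exact absurd hi hni
      have hinj : Set.InjOn s F := by
        intro i hi j hj hij
        by_contra hne
        exact (hst i hi).2 j (Finset.mem_erase.2 ⟨Ne.symm hne, hj⟩) hij.symm
      have hdvd : Q ∣ D := by
        refine Finset.prod_dvd_of_coprime ?_ ?_
        · intro i hi j hj hij
          exact isCoprime_X_sub_C_of_isUnit_sub
            (isUnit_iff_ne_zero.2 (sub_ne_zero.2 (fun hh => hij (hinj hi hj hh))))
        · intro i hi
          exact dvd_iff_isRoot.2 (hDeval i hi)
      obtain ⟨R, hR⟩ := hdvd
      have hRC : ∃ c : ℝ, D = C c * Q := by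
        by_cases hD0 : D = 0
        · exact ⟨0, by rw [hD0]; simp⟩
        · have hR0 : R ≠ 0 := by rintro rfl; exact hD0 (by rw [hR, mul_zero])
          have h5 : D.natDegree = F.card + R.natDegree := by
            rw [hR, natDegree_mul hQmonic.ne_zero hR0, hQdeg]
          have h6 : D.natDegree ≤ F.card := natDegree_le_of_degree_le hDdeg
          have h7 : R.natDegree = 0 := by omega
          obtain ⟨c, hc⟩ := natDegree_eq_zero.1 h7
          exact ⟨c, by rw [hR, ← hc, mul_comm]⟩
      obtain ⟨c, hc⟩ := hRC
      refine ⟨w, -c, hw, ?_⟩
      have : χ = D + X * Q - ∑ i ∈ F, C (w i) * ∏ j ∈ F.erase i, (X - C (s j)) := by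
        simp only [D]; ring
      change χ = (X - C (-c)) * Q - ∑ i ∈ F, C (w i) * ∏ j ∈ F.erase i, (X - C (s j))
      rw [this, hc]
      simp only [map_neg]
      ring

end Pool.Agent.Helper45.NC
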