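import Mathlib
import Pool.Agent.Helper45.NC.Basic

set_option autoImplicit false
open scoped Matrix

namespace Pool.Agent.Helper45.NC

open Matrix Finset

variable {ι m : Type*} [Fintype ι] [Fintype m] [DecidableEq ι] [DecidableEq m]

/-- the Hermitian form of a real diagonal matrix -/
theorem form_diag (l : m → ℝ) (c : m → ℂ) :
    star c ⬝ᵥ (diagonal (fun j => (l j : ℂ)) *ᵥ c) = ((∑ j, l j * ‖c j‖ ^ 2 : ℝ) : ℂ) := by
  simp only [dotProduct, Matrix.mulVec_diagonal, Pi.star_apply]
  push_cast
  refine Finset.sum_congr rfl (fun j _ => ?_)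
  have : star (c j) * c j = (‖c j‖ : ℂ) ^ 2 := by
    have := Complex.conj_mul' (c j)
    simpa using this
  calc star (c j) * ((l j : ℂ) * c j) = (l j : ℂ) * (star (c j) * c j) := by ring
    _ = _ := by rw [this]

/-- the key dimension count behind Cauchy interlacing -/
theorem count_aux (s : ι → ℝ) (l : m → ℝ) (W : Matrix m ι ℂ) (h1 : Wᴴ * W = 1)
    (h2 : Wᴴ * diagonal (fun j => (l j : ℂ)) * W = diagonal (fun i => (s i : ℂ)))
    (p : ι → Prop) [DecidablePred p] (r : m → Prop) [DecidablePred r] (t : ℝ)
    (hpr : ((∀ i, p i → t < s i) ∧ (∀ j, r j → l j ≤ t)) ∨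
      ((∀ i, p i → s i ≤ t) ∧ (∀ j, r j → t < l j))) :
    Fintype.card {i // p i} + Fintype.card {j // r j} ≤ Fintype.card m := by
  -- extension by zero
  let ext1 : ({i // p i} → ℂ) →ₗ[ℂ] (ι → ℂ) :=
    { toFun := fun e i => if h : p i then e ⟨i, h⟩ else 0
      map_add' := by intro x y; ext i; by_cases h : p i <;> simp [h]
      map_smul' := by intro c x; ext i; by_cases h : p i <;> simp [h] }
  let ext2 : ({j // r j} → ℂ) →ₗ[ℂ] (m → ℂ) :=
    { toFun := fun e i => if h : r i then e ⟨i, h⟩ else 0
      map_add' := by intro x y; ext i; by_cases h : r i <;> simp [h]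
      map_smul' := by intro c x; ext i; by_cases h : r i <;> simp [h] }
  have he1 : ∀ e (i : {i // p i}), ext1 e i = e i := by
    intro e i; simp only [ext1, LinearMap.coe_mk, AddHom.coe_mk, i.2, dif_pos]
  have he1' : ∀ e (i : ι), ¬ p i → ext1 e i = 0 := by
    intro e i hi; simp only [ext1, LinearMap.coe_mk, AddHom.coe_mk, hi, dif_neg, not_false_iff]
  have he2 : ∀ e (i : {i // r i}), ext2 e i = e i := by
    intro e i; simp only [ext2, LinearMap.coe_mk, AddHom.coe_mk, i.2, dif_pos]
  have he2' : ∀ e (i : m), ¬ r i → ext2 e i = 0 := by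
    intro e i hi; simp only [ext2, LinearMap.coe_mk, AddHom.coe_mk, hi, dif_neg, not_false_iff]
  let Φ : (({i // p i} → ℂ) × ({j // r j} → ℂ)) →ₗ[ℂ] (m → ℂ) :=
    (W.mulVecLin.comp ext1).comp (LinearMap.fst ℂ _ _) - ext2.comp (LinearMap.snd ℂ _ _)
  have hinj : Function.Injective Φ := by
    rw [← LinearMap.ker_eq_bot, LinearMap.ker_eq_bot']
    rintro ⟨e, c⟩ hec
    have hW : W *ᵥ (ext1 e) = ext2 c := by
      have : W *ᵥ (ext1 e) - ext2 c = 0 := hec
      exact sub_eq_zero.1 this
    set x := ext1 e with hx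
    set y := ext2 c with hy
    -- norms
    have hn : ∑ j, ‖y j‖ ^ 2 = ∑ i, ‖x i‖ ^ 2 := by
      have e1 := form_diag (fun _ : m => (1 : ℝ)) y
      have e2 := form_diag (fun _ : ι => (1 : ℝ)) x
      simp only [Complex.ofReal_one, diagonal_one, Matrix.one_mulVec, one_mul] at e1 e2
      have e3 : star y ⬝ᵥ y = star x ⬝ᵥ x := by
        rw [← hW, Matrix.star_mulVec, ← Matrix.dotProduct_mulVec, Matrix.mulVec_mulVec, h1,
          Matrix.one_mulVec]
      rw [e1, e2] at e3
      exact_mod_cast e3
    have hf : ∑ j, l j * ‖y j‖ ^ 2 = ∑ i, s i * ‖x i‖ ^ 2 := by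
      have e1 := form_diag l y
      have e2 := form_diag s x
      have e3 : star y ⬝ᵥ (diagonal (fun j => (l j : ℂ)) *ᵥ y)
          = star x ⬝ᵥ (diagonal (fun j => (s j : ℂ)) *ᵥ x) := by
        rw [← hW, Matrix.star_mulVec, ← Matrix.dotProduct_mulVec, Matrix.mulVec_mulVec,
          Matrix.mulVec_mulVec, h2]
      rw [e1, e2] at e3
      exact_mod_cast e3
    -- reduce to vanishing of `x`
    have hx0 : ∀ i, ‖x i‖ ^ 2 = 0 := by
      rcases hpr with ⟨hp, hr⟩ | ⟨hp, hr⟩
      · have h3 : ∑ j, l j * ‖y j‖ ^ 2 ≤ ∑ j, t * ‖y j‖ ^ 2 := by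
          refine Finset.sum_le_sum (fun j _ => ?_)
          by_cases hj : r j
          · exact mul_le_mul_of_nonneg_right (hr j hj) (by positivity)
          · have : y j = 0 := he2' c j hj
            simp [this]
        have h4 : ∀ i, 0 ≤ (s i - t) * ‖x i‖ ^ 2 := by
          intro i
          by_cases hi : p i
          · exact mul_nonneg (by linarith [hp i hi]) (by positivity)
          · have : x i = 0 := he1' e i hi
            simp [this]
        have h5 : ∑ i, (s i - t) * ‖x i‖ ^ 2 ≤ 0 := by
          have : ∑ i, (s i - t) * ‖x i‖ ^ 2 = ∑ i, s i * ‖x i‖ ^ 2 - t * ∑ i, ‖x i‖ ^ 2 := by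
            rw [Finset.mul_sum, ← Finset.sum_sub_distrib]
            exact Finset.sum_congr rfl (fun i _ => by ring)
          rw [this, ← hf, ← hn, Finset.mul_sum]
          linarith
        have h6 := (Finset.sum_eq_zero_iff_of_nonneg (fun i _ => h4 i)).1
          (le_antisymm h5 (Finset.sum_nonneg (fun i _ => h4 i)))
        intro i
        by_cases hi : p i
        · have := h6 i (Finset.mem_univ i)
          rcases mul_eq_zero.1 this with h | h
          · exact absurd h (by linarith [hp i hi])
          · exact h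
        · have : x i = 0 := he1' e i hi
          simp [this]
      · have h4 : ∀ j, 0 ≤ (l j - t) * ‖y j‖ ^ 2 := by
          intro j
          by_cases hj : r j
          · exact mul_nonneg (by linarith [hr j hj]) (by positivity)
          · have : y j = 0 := he2' c j hj
            simp [this]
        have h3 : ∑ i, s i * ‖x i‖ ^ 2 ≤ ∑ i, t * ‖x i‖ ^ 2 := by
          refine Finset.sum_le_sum (fun i _ => ?_)
          by_cases hi : p i
          · exact mul_le_mul_of_nonneg_right (hp i hi) (by positivity)
          · have : x i = 0 := he1' e i hi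
            simp [this]
        have h5 : ∑ j, (l j - t) * ‖y j‖ ^ 2 ≤ 0 := by
          have : ∑ j, (l j - t) * ‖y j‖ ^ 2 = ∑ j, l j * ‖y j‖ ^ 2 - t * ∑ j, ‖y j‖ ^ 2 := by
            rw [Finset.mul_sum, ← Finset.sum_sub_distrib]
            exact Finset.sum_congr rfl (fun i _ => by ring)
          rw [this, hf, hn, Finset.mul_sum]
          linarith
        have h6 := (Finset.sum_eq_zero_iff_of_nonneg (fun i _ => h4 i)).1
          (le_antisymm h5 (Finset.sum_nonneg (fun i _ => h4 i)))
        have h7 : ∀ j, ‖y j‖ ^ 2 = 0 := by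
          intro j
          by_cases hj : r j
          · have := h6 j (Finset.mem_univ j)
            rcases mul_eq_zero.1 this with h | h
            · exact absurd h (by linarith [hr j hj])
            · exact h
          · have : y j = 0 := he2' c j hj
            simp [this]
        have h8 : ∑ i, ‖x i‖ ^ 2 = 0 := by
          rw [← hn]; exact Finset.sum_eq_zero (fun j _ => h7 j)
        intro i
        exact (Finset.sum_eq_zero_iff_of_nonneg (fun i _ => by positivity)).1 h8 i (Finset.mem_univ i)
    have hx0' : ∀ i, x i = 0 := fun i => norm_eq_zero.1 (pow_eq_zero_iff (two_ne_zero)|>.1 (hx0 i))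
    have hxz : x = 0 := funext hx0'
    have hyz : y = 0 := by rw [← hW, hxz, Matrix.mulVec_zero]
    have he0 : e = 0 := by
      funext i
      rw [← he1 e i, ← hx, hxz]; rfl
    have hc0 : c = 0 := by
      funext i
      rw [← he2 c i, ← hy, hyz]; rfl
    rw [he0, hc0]; rfl
  have := LinearMap.finrank_le_finrank_of_injective hinj
  simpa [Module.finrank_prod, Module.finrank_fintype_fun_eq_card] using this

omit [DecidableEq ι] in
theorem card_filter_ms (s : ι → ℝ) (t : ℝ) :
    ((ms s).filter (fun x => t < x)).card = Fintype.card {i // t < s i} := by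
  classical
  unfold ms
  rw [Multiset.filter_map, Multiset.card_map, Fintype.card_subtype]
  rfl

/-- Cauchy interlacing in counting form -/
theorem cauchy (s : ι → ℝ) (l : m → ℝ) (W : Matrix m ι ℂ) (h1 : Wᴴ * W = 1)
    (h2 : Wᴴ * diagonal (fun j => (l j : ℂ)) * W = diagonal (fun i => (s i : ℂ))) (t : ℝ) :
    Fintype.card {i // t < s i} ≤ Fintype.card {j // t < l j} ∧
    Fintype.card {j // t < l j} + Fintype.card ι ≤ Fintype.card {i // t < s i} + Fintype.card m := by
  classical
  have ha := count_aux s l W h1 h2 (fun i => t < s i) (fun j => ¬ (t < l j)) t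
    (Or.inl ⟨fun i hi => hi, fun j hj => not_lt.1 hj⟩)
  have hb := count_aux s l W h1 h2 (fun i => ¬ (t < s i)) (fun j => t < l j) t
    (Or.inr ⟨fun i hi => not_lt.1 hi, fun j hj => hj⟩)
  have h3 := Fintype.card_subtype_compl (fun j => t < l j)
  have h4 := Fintype.card_subtype_compl (fun i => t < s i)
  have h5 := Fintype.card_subtype_le (fun j => t < l j)
  have h6 := Fintype.card_subtype_le (fun i => t < s i)
  omega

theorem interlaces_of_isometry (s : ι → ℝ) (l : m → ℝ) (W : Matrix m ι ℂ) (h1 : Wᴴ * W = 1)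
    (h2 : Wᴴ * diagonal (fun j => (l j : ℂ)) * W = diagonal (fun i => (s i : ℂ)))
    (hc : Fintype.card m = Fintype.card ι + 1) : Interlaces (ms l) (ms s) := by
  refine ⟨by rw [ms_card, ms_card, hc], fun t => ?_⟩
  rw [card_filter_ms, card_filter_ms]
  have := cauchy s l W h1 h2 t
  omega

omit [DecidableEq ι] in
theorem roots_prod_ms (c : ι → ℂ) :
    (∏ i, (Polynomial.X - Polynomial.C (c i))).roots = ms c := by
  unfold ms
  rw [← Polynomial.roots_multiset_prod_X_sub_C (Multiset.map c Finset.univ.val)]
  rw [Multiset.map_map]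
  rfl

/-- codimension zero: equal multisets of eigenvalues -/
theorem ms_eq_of_unitary (a : ι → ℂ) (b : m → ℂ) (W : Matrix m ι ℂ) (h1 : Wᴴ * W = 1)
    (h1' : W * Wᴴ = 1) (h2 : Wᴴ * diagonal b * W = diagonal a) : ms a = ms b := by
  classical
  have hcp : (diagonal a).charpoly = (diagonal b).charpoly := by
    have h3 : Fintype.card m = Fintype.card ι := by
      have e1 : Matrix.trace (Wᴴ * W) = (Fintype.card ι : ℂ) := by rw [h1]; simp
      have e2 : Matrix.trace (W * Wᴴ) = (Fintype.card m : ℂ) := by rw [h1']; simp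
      rw [Matrix.trace_mul_comm, e2] at e1
      exact_mod_cast e1
    have e : ι ≃ m := (Fintype.equivOfCardEq h3).symm
    -- make `W` square
    let V : Matrix ι ι ℂ := W.submatrix e id
    have hV1 : Vᴴ * V = 1 := by
      have : Vᴴ * V = Wᴴ * W := by
        ext i j
        simp only [V, Matrix.mul_apply, conjTranspose_apply, submatrix_apply, id]
        exact Equiv.sum_comp e (fun x => star (W x i) * W x j)
      rw [this, h1]
    have hV2 : V * Vᴴ = 1 := mul_eq_one_comm.1 hV1
    have hV3 : Vᴴ * diagonal (b ∘ e) * V = diagonal a := by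
      rw [← h2]
      ext i j
      simp only [V, Matrix.mul_apply, conjTranspose_apply, submatrix_apply, id]
      simp only [diagonal_apply, mul_ite, mul_zero, Finset.sum_ite_eq',
        Finset.mem_univ, if_true, Function.comp]
      exact Equiv.sum_comp e (fun x => star (W x i) * b x * W x j)
    have e4 : (diagonal a).charpoly = (diagonal (b ∘ e)).charpoly := by
      rw [← hV3, Matrix.charpoly_mul_comm, ← Matrix.mul_assoc, hV2, Matrix.one_mul]
    rw [e4, charpoly_diagonal, charpoly_diagonal]
    exact Equiv.prod_comp e (fun x => Polynomial.X - Polynomial.C (b x))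
  rw [charpoly_diagonal, charpoly_diagonal] at hcp
  have h5 := congrArg Polynomial.roots hcp
  rw [roots_prod_ms, roots_prod_ms] at h5
  exact h5

end Pool.Agent.Helper45.NC
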