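import Mathlib
import Pool.Agent.Helper45.NC.Arrow
import Pool.Agent.Helper45.NC.Cauchy

set_option autoImplicit false
open scoped Matrix Polynomial

namespace Pool.Agent.Helper45.NC

open Matrix Finset Polynomial

theorem herm_diag {n : Type*} [Fintype n] [DecidableEq n] (N : Matrix n n ℂ)
    (hN : N.IsHermitian) :
    ∃ (P : Matrix n n ℂ) (l : n → ℝ), Pᴴ * P = 1 ∧ P * Pᴴ = 1 ∧
      N * P = P * diagonal (fun i => (l i : ℂ)) ∧
      N.charpoly = ∏ i, (X - C ((l i : ℝ) : ℂ)) := by
  refine ⟨hN.eigenvectorUnitary, hN.eigenvalues, ?_, ?_, ?_, ?_⟩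
  · have := Unitary.coe_star_mul_self hN.eigenvectorUnitary
    simpa [star_eq_conjTranspose] using this
  · have := Unitary.coe_mul_star_self hN.eigenvectorUnitary
    simpa [star_eq_conjTranspose] using this
  · have h1 := hN.spectral_theorem
    rw [Unitary.conjStarAlgAut_apply] at h1
    have h2 := congrArg (fun M => M * (hN.eigenvectorUnitary : Matrix n n ℂ)) h1
    refine h2.trans ?_
    rw [Matrix.mul_assoc, Unitary.coe_star_mul_self, Matrix.mul_one]
    rfl
  · exact hN.charpoly_eq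

/-- the real arrowhead matrix -/
noncomputable def arrow {ι : Type*} [DecidableEq ι] (s q : ι → ℝ) (r : ℝ) :
    Matrix (ι ⊕ Unit) (ι ⊕ Unit) ℂ :=
  fromBlocks (diagonal (fun i => (s i : ℂ))) (Matrix.of (fun i _ => (q i : ℂ)))
    (Matrix.of (fun _ i => (q i : ℂ))) (Matrix.of (fun _ _ => (r : ℂ)))

theorem arrow_herm {ι : Type*} [DecidableEq ι] (s q : ι → ℝ) (r : ℝ) :
    (arrow s q r).IsHermitian := by
  unfold arrow
  refine IsHermitian.fromBlocks ?_ ?_ ?_
  · ext i j
    by_cases h : i = j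
    · subst h; simp
    · simp [h, Ne.symm h]
  · ext i j
    simp
  · ext i j
    simp

theorem arrow_charpoly {ι : Type*} [Fintype ι] [DecidableEq ι] (s q : ι → ℝ) (r : ℝ) :
    (arrow s q r).charpoly =
      ((X - C (r : ℂ)) * ∏ i, (X - C (s i : ℂ))
        - ∑ i, C ((q i ^ 2 : ℝ) : ℂ) * ∏ j ∈ Finset.univ.erase i, (X - C (s j : ℂ))) := by
  classical
  apply Polynomial.eq_of_infinite_eval_eq
  have hfin : (Set.range (fun i => (s i : ℂ))).Finite := Set.finite_range _
  refine Set.Infinite.mono ?_ hfin.infinite_compl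
  intro x hx
  have hx' : ∀ i, x - (s i : ℂ) ≠ 0 := fun i => sub_ne_zero.2 (fun h => hx ⟨i, h.symm⟩)
  simp only [Set.mem_ofPred_eq]
  rw [Matrix.eval_charpoly]
  have hblock : (Matrix.scalar (ι ⊕ Unit)) x - arrow s q r =
      fromBlocks (diagonal (fun i => x - (s i : ℂ))) (Matrix.of (fun i _ => -(q i : ℂ)))
        (Matrix.of (fun _ i => -(q i : ℂ))) (Matrix.of (fun _ _ => x - (r : ℂ))) := by
    ext i j
    rcases i with i | i <;> rcases j with j | j
    · by_cases h : i = j
      · subst h; simp [arrow]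
      · simp [arrow, h]
    · simp [arrow]
    · simp [arrow]
    · simp [arrow]
  rw [hblock]
  have hinv : Invertible (diagonal (fun i => x - (s i : ℂ))) := by
    refine Matrix.invertibleOfIsUnitDet _ ?_
    rw [det_diagonal, isUnit_iff_ne_zero]
    exact Finset.prod_ne_zero_iff.2 (fun i _ => hx' i)
  rw [det_fromBlocks₁₁, det_diagonal]
  have hinv' : ⅟(diagonal (fun i => x - (s i : ℂ))) = diagonal (fun i => (x - (s i : ℂ))⁻¹) := by
    apply invOf_eq_right_inv
    rw [diagonal_mul_diagonal]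
    ext i j
    by_cases h : i = j
    · subst h; simp [hx' i]
    · simp [h]
  rw [hinv', det_unique]
  simp only [eval_sub, eval_mul, eval_X, eval_C, eval_prod, eval_finsetSum]
  rw [Matrix.sub_apply, Matrix.mul_apply]
  simp only [mul_diagonal, Matrix.of_apply]
  have h1 : ∀ i, ∏ j ∈ Finset.univ.erase i, (x - (s j : ℂ)) =
      (∏ j, (x - (s j : ℂ))) * (x - (s i : ℂ))⁻¹ := by
    intro i
    rw [← Finset.mul_prod_erase Finset.univ _ (Finset.mem_univ i)]
    have := hx' i
    field_simp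
  simp only [h1]
  rw [mul_sub, Finset.mul_sum]
  congr 1
  · ring
  · refine Finset.sum_congr rfl (fun i _ => ?_)
    push_cast
    ring

/-- realisation of interlacing data by an arrowhead matrix -/
theorem exists_arrow {ι : Type*} [Fintype ι] [DecidableEq ι] (s : ι → ℝ) (T : Multiset ℝ)
    (h : Interlaces T (ms s)) :
    ∃ (q : ι → ℝ) (r : ℝ) (P : Matrix (ι ⊕ Unit) (ι ⊕ Unit) ℂ) (l : ι ⊕ Unit → ℝ),
      Pᴴ * P = 1 ∧ P * Pᴴ = 1 ∧ arrow s q r * P = P * diagonal (fun i => (l i : ℂ)) ∧
      ms l = T := by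
  classical
  obtain ⟨w, r, hw, hpoly⟩ := exists_arrow_poly s Finset.univ T h
  let q : ι → ℝ := fun i => Real.sqrt (w i)
  obtain ⟨P, l, h1, h2, h3, h4⟩ := herm_diag (arrow s q r) (arrow_herm s q r)
  refine ⟨q, r, P, l, h1, h2, h3, ?_⟩
  have h5 : (arrow s q r).charpoly = (T.map (fun t : ℝ => X - C (t : ℂ))).prod := by
    rw [arrow_charpoly]
    have h6 := congrArg (Polynomial.map (algebraMap ℝ ℂ)) hpoly
    rw [Polynomial.map_multiset_prod, Multiset.map_map] at h6
    have h7 : (Polynomial.map (algebraMap ℝ ℂ) ∘ fun t : ℝ => X - C t)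
        = fun t : ℝ => X - C (t : ℂ) := by
      funext t
      simp
    rw [h7] at h6
    rw [h6]
    simp only [Polynomial.map_sub, Polynomial.map_mul, Polynomial.map_X, Polynomial.map_C,
      Polynomial.map_prod, Polynomial.map_sum]
    congr 1
    refine Finset.sum_congr rfl (fun i _ => ?_)
    have : q i ^ 2 = w i := Real.sq_sqrt (hw i)
    rw [this]
    rfl
  rw [h4] at h5
  have h8 := congrArg Polynomial.roots h5
  rw [roots_prod_ms (fun i => ((l i : ℝ) : ℂ))] at h8
  have h9 : (T.map (fun t : ℝ => X - C (t : ℂ))).prod.roots = T.map (fun t : ℝ => (t : ℂ)) := by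
    have := Polynomial.roots_multiset_prod_X_sub_C (T.map (fun t : ℝ => (t : ℂ)))
    rw [Multiset.map_map] at this
    exact this
  rw [h9] at h8
  have h10 : ms (fun i => ((l i : ℝ) : ℂ)) = (ms l).map (fun t : ℝ => (t : ℂ)) := by
    rw [ms_map]; rfl
  rw [h10] at h8
  exact Multiset.map_injective Complex.ofReal_injective h8

end Pool.Agent.Helper45.NC
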