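import Mathlib
import Pool.Agent.Helper45.NC.Cauchy

set_option autoImplicit false
open scoped Matrix

namespace Pool.Agent.Helper45.NC

open Matrix Finset

variable {ι m : Type*} [Fintype ι] [Fintype m] [DecidableEq ι] [DecidableEq m]

/-- completing an isometry to a unitary -/
theorem complete (W : Matrix m ι ℂ) (h : Wᴴ * W = 1) (c : ℕ)
    (hc : Fintype.card m = Fintype.card ι + c) :
    ∃ F : Matrix m (Fin c) ℂ, Fᴴ * F = 1 ∧ Wᴴ * F = 0 ∧ W * Wᴴ + F * Fᴴ = 1 := by
  classical
  let E := EuclideanSpace ℂ m
  let v : ι ⊕ Fin c → E := Sum.elim (fun i => WithLp.toLp 2 (fun j => W j i)) (fun _ => 0)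
  have hinner : ∀ x y : E, inner ℂ x y = ∑ j, star (x.ofLp j) * y.ofLp j := by
    intro x y
    rw [PiLp.inner_apply]
    refine Finset.sum_congr rfl (fun j _ => ?_)
    simp [mul_comm]
  have hW : ∀ i i' : ι, ∑ j, star (W j i) * W j i' = if i = i' then 1 else 0 := by
    intro i i'
    have := congrFun (congrFun h i) i'
    simpa [Matrix.mul_apply, Matrix.one_apply] using this
  have hv : Orthonormal ℂ ((Set.range (Sum.inl : ι → ι ⊕ Fin c)).domRestrict v) := by
    rw [orthonormal_iff_ite]
    rintro ⟨_, i, rfl⟩ ⟨_, i', rfl⟩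
    have h0 := hinner (v (Sum.inl i)) (v (Sum.inl i'))
    have h00 : ∑ j, star ((v (Sum.inl i)).ofLp j) * (v (Sum.inl i')).ofLp j
        = if i = i' then 1 else 0 := hW i i'
    rw [h00] at h0
    refine Eq.trans h0 ?_
    by_cases hii : i = i'
    · subst hii
      rw [if_pos rfl, if_pos rfl]
    · rw [if_neg hii, if_neg]
      intro hcon
      exact hii (Sum.inl_injective (Subtype.ext_iff.1 hcon))
  have hcard : Module.finrank ℂ E = Fintype.card (ι ⊕ Fin c) := by
    simp [E, hc]
  obtain ⟨b, hb⟩ := hv.exists_orthonormalBasis_extension_of_card_eq hcard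
  let G : Matrix m (ι ⊕ Fin c) ℂ := Matrix.of (fun j p => (b p).ofLp j)
  have hG1 : ∀ p p', ∑ j, star (G j p) * G j p' = if p = p' then 1 else 0 := by
    intro p p'
    have := orthonormal_iff_ite.1 b.orthonormal p p'
    rw [hinner] at this
    exact this
  have hGG : Gᴴ * G = 1 := by
    ext p p'
    rw [Matrix.mul_apply, Matrix.one_apply]
    exact hG1 p p'
  have hGG' : G * Gᴴ = 1 := by
    have e : m ≃ ι ⊕ Fin c := Fintype.equivOfCardEq (by simp [hc])
    let V : Matrix m m ℂ := G.submatrix id e
    have hV1 : Vᴴ * V = 1 := by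
      have : Vᴴ * V = (Gᴴ * G).submatrix e e := by
        ext i j
        simp [V, Matrix.mul_apply, conjTranspose_apply]
      rw [this, hGG]
      ext i j
      simp [Matrix.one_apply]
    have hV2 : V * Vᴴ = 1 := mul_eq_one_comm.1 hV1
    rw [← hV2]
    ext i j
    simp only [V, Matrix.mul_apply, conjTranspose_apply, submatrix_apply, id]
    exact (Equiv.sum_comp e (fun x => G i x * star (G j x))).symm
  have hGW : ∀ j i, G j (Sum.inl i) = W j i := by
    intro j i
    have h0 : G j (Sum.inl i) = (b (Sum.inl i)).ofLp j := rfl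
    rw [h0, hb (Sum.inl i) ⟨i, rfl⟩]
    rfl
  refine ⟨G.submatrix id Sum.inr, ?_, ?_, ?_⟩
  · ext i j
    have := hG1 (Sum.inr i) (Sum.inr j)
    simpa [Matrix.mul_apply, Matrix.one_apply] using this
  · ext i j
    have := hG1 (Sum.inl i) (Sum.inr j)
    simpa [Matrix.mul_apply, Matrix.one_apply, hGW] using this
  · ext i j
    have := congrFun (congrFun hGG' i) j
    rw [Matrix.mul_apply] at this
    simp only [Fintype.sum_sum_type, conjTranspose_apply, hGW] at this
    rw [← this, Matrix.add_apply, Matrix.mul_apply, Matrix.mul_apply]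
    simp only [conjTranspose_apply, submatrix_apply, id]

/-- Splitting an isometry along level sets. -/
theorem level {c : ℕ} (W : Matrix m ι ℂ) (F : Matrix m (Fin c) ℂ) (h1 : Wᴴ * W = 1)
    (h2 : W * Wᴴ + F * Fᴴ = 1) (a : ι → ℂ) (b : m → ℂ) (h3 : Wᴴ * diagonal b * W = diagonal a)
    (p : m → Prop) [DecidablePred p] (q : ι → Prop) [DecidablePred q]
    (hW : ∀ j i, ¬ (p j ↔ q i) → W j i = 0) (hF : ∀ j k, ¬ p j → F j k = 0)
    (hcard : Fintype.card m = Fintype.card ι + c) :
    (∀ i i' : {i // q i}, ∑ j : {j // p j}, star (W j i) * W j i' = if i = i' then 1 else 0) ∧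
    (∀ i i' : {i // q i}, ∑ j : {j // p j}, star (W j i) * b j * W j i'
      = if i = i' then a i else 0) ∧
    ms (fun j : {j // ¬ p j} => b j) = ms (fun i : {i // ¬ q i} => a i) ∧
    Fintype.card {j // p j} = Fintype.card {i // q i} + c := by
  classical
  have hsplit : ∀ g : m → ℂ, ∑ j, g j = ∑ j : {j // p j}, g j + ∑ j : {j // ¬ p j}, g j := by
    intro g
    have := Fintype.sum_sum_type (fun x : {j // p j} ⊕ {j // ¬ p j} => g (Equiv.sumCompl p x))
    rw [Equiv.sum_comp (Equiv.sumCompl p) g] at this
    rw [this]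
    simp
  have hsplit' : ∀ g : ι → ℂ, ∑ j, g j = ∑ j : {j // q j}, g j + ∑ j : {j // ¬ q j}, g j := by
    intro g
    have := Fintype.sum_sum_type (fun x : {j // q j} ⊕ {j // ¬ q j} => g (Equiv.sumCompl q x))
    rw [Equiv.sum_comp (Equiv.sumCompl q) g] at this
    rw [this]
    simp
  have e1 : ∀ i i' : ι, ∑ j, star (W j i) * W j i' = if i = i' then 1 else 0 := by
    intro i i'
    have := congrFun (congrFun h1 i) i'
    simpa [Matrix.mul_apply, Matrix.one_apply] using this
  have e3 : ∀ i i' : ι, ∑ j, star (W j i) * b j * W j i' = if i = i' then a i else 0 := by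
    intro i i'
    have := congrFun (congrFun h3 i) i'
    rw [Matrix.mul_apply] at this
    simp only [mul_diagonal, conjTranspose_apply, diagonal_apply] at this
    exact this
  have e2 : ∀ j j' : m, ∑ i, W j i * star (W j' i) + ∑ k, F j k * star (F j' k)
      = if j = j' then 1 else 0 := by
    intro j j'
    have := congrFun (congrFun h2 j) j'
    rw [Matrix.add_apply, Matrix.mul_apply, Matrix.mul_apply, Matrix.one_apply] at this
    simpa only [conjTranspose_apply] using this
  have g1 : ∀ i i' : {i // q i}, ∑ j : {j // p j}, star (W j i) * W j i'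
      = if i = i' then 1 else 0 := by
    intro i i'
    have h := e1 i i'
    rw [hsplit] at h
    have hz : ∑ j : {j // ¬ p j}, star (W j i) * W j i' = 0 := by
      apply Finset.sum_eq_zero
      intro j _
      rw [hW j i' (fun hh => j.2 (hh.2 i'.2)), mul_zero]
    rw [hz, add_zero] at h
    rw [h]
    simp [Subtype.ext_iff]
  have g3 : ∀ i i' : {i // q i}, ∑ j : {j // p j}, star (W j i) * b j * W j i'
      = if i = i' then a i else 0 := by
    intro i i'
    have h := e3 i i'
    rw [hsplit] at h
    have hz : ∑ j : {j // ¬ p j}, star (W j i) * b j * W j i' = 0 := by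
      apply Finset.sum_eq_zero
      intro j _
      rw [hW j i' (fun hh => j.2 (hh.2 i'.2)), mul_zero]
    rw [hz, add_zero] at h
    rw [h]
    simp [Subtype.ext_iff]
  -- the complementary block is unitary
  let V : Matrix {j // ¬ p j} {i // ¬ q i} ℂ := W.submatrix Subtype.val Subtype.val
  have v1 : Vᴴ * V = 1 := by
    ext i i'
    rw [Matrix.mul_apply, Matrix.one_apply]
    simp only [conjTranspose_apply, V, submatrix_apply]
    have h := e1 i i'
    rw [hsplit] at h
    have hz : ∑ j : {j // p j}, star (W j i) * W j i' = 0 := by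
      apply Finset.sum_eq_zero
      intro j _
      rw [hW j i' (fun hh => i'.2 (hh.1 j.2)), mul_zero]
    rw [hz, zero_add] at h
    rw [h]
    simp [Subtype.ext_iff]
  have v2 : V * Vᴴ = 1 := by
    ext j j'
    rw [Matrix.mul_apply, Matrix.one_apply]
    simp only [conjTranspose_apply, V, submatrix_apply]
    have h := e2 j j'
    have hz : ∑ k, F j k * star (F j' k) = 0 := by
      apply Finset.sum_eq_zero
      intro k _
      rw [hF j k j.2, zero_mul]
    rw [hz, add_zero, hsplit'] at h
    have hz2 : ∑ i : {i // q i}, W j i * star (W j' i) = 0 := by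
      apply Finset.sum_eq_zero
      intro i _
      rw [hW j i (fun hh => j.2 (hh.2 i.2)), zero_mul]
    rw [hz2, zero_add] at h
    rw [h]
    simp [Subtype.ext_iff]
  have v3 : Vᴴ * diagonal (fun j : {j // ¬ p j} => b j) * V
      = diagonal (fun i : {i // ¬ q i} => a i) := by
    ext i i'
    rw [Matrix.mul_apply]
    simp only [mul_diagonal, conjTranspose_apply, diagonal_apply, V, submatrix_apply]
    have h := e3 i i'
    rw [hsplit] at h
    have hz : ∑ j : {j // p j}, star (W j i) * b j * W j i' = 0 := by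
      apply Finset.sum_eq_zero
      intro j _
      rw [hW j i' (fun hh => i'.2 (hh.1 j.2)), mul_zero]
    rw [hz, zero_add] at h
    rw [h]
    simp [Subtype.ext_iff]
  have hms := ms_eq_of_unitary _ _ V v1 v2 v3
  refine ⟨g1, g3, hms.symm, ?_⟩
  have hcc := congrArg Multiset.card hms
  rw [ms_card, ms_card] at hcc
  have c1 := Fintype.card_subtype_compl p
  have c2 := Fintype.card_subtype_compl q
  have c3 := Fintype.card_subtype_le p
  have c4 := Fintype.card_subtype_le q
  omega

end Pool.Agent.Helper45.NC
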