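import Mathlib

set_option autoImplicit false
open scoped Matrix

namespace Pool.Agent.Helper45.NC

open Matrix Finset Module.End

/-- a unitary matrix from an orthonormal basis of eigenvectors -/
theorem diag_of_basis {n : Type*} [Fintype n] [DecidableEq n] (M : Matrix n n ℂ)
    (b : OrthonormalBasis n ℂ (EuclideanSpace ℂ n)) (d : n → ℂ)
    (hb : ∀ i, M *ᵥ (b i).ofLp = d i • (b i).ofLp) :
    ∃ (U : Matrix n n ℂ), Uᴴ * U = 1 ∧ U * Uᴴ = 1 ∧ M * U = U * diagonal d := by
  let U : Matrix n n ℂ := (EuclideanSpace.basisFun n ℂ).toBasis.toMatrix b.toBasis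
  have hU : U ∈ Matrix.unitaryGroup n ℂ :=
    (EuclideanSpace.basisFun n ℂ).toMatrix_orthonormalBasis_mem_unitary b
  have hUapp : ∀ i j, U i j = (b j).ofLp i := by
    intro i j
    simp [U, Module.Basis.toMatrix_apply]
  refine ⟨U, ?_, ?_, ?_⟩
  · have := (Matrix.mem_unitaryGroup_iff').1 hU
    simpa [star_eq_conjTranspose] using this
  · have := (Matrix.mem_unitaryGroup_iff).1 hU
    simpa [star_eq_conjTranspose] using this
  · ext i j
    rw [mul_diagonal, Matrix.mul_apply]
    have := congrFun (hb j) i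
    simp only [Matrix.mulVec, dotProduct, Pi.smul_apply, smul_eq_mul] at this
    simp only [hUapp]
    rw [this, mul_comm]

/-- unitary diagonalisation of a normal matrix -/
theorem normal_diag {n : Type*} [Fintype n] [DecidableEq n] (M : Matrix n n ℂ)
    (hM : Mᴴ * M = M * Mᴴ) :
    ∃ (U : Matrix n n ℂ) (d : n → ℂ), Uᴴ * U = 1 ∧ U * Uᴴ = 1 ∧ M * U = U * diagonal d := by
  classical
  let H : Matrix n n ℂ := (1 / 2 : ℂ) • (M + Mᴴ)
  let K : Matrix n n ℂ := (-Complex.I / 2 : ℂ) • (M - Mᴴ)
  have hH : H.IsHermitian := by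
    unfold Matrix.IsHermitian
    simp only [H, conjTranspose_smul, conjTranspose_add, conjTranspose_conjTranspose]
    rw [add_comm]
    simp
  have hK : K.IsHermitian := by
    unfold Matrix.IsHermitian
    simp only [K, conjTranspose_smul, conjTranspose_sub, conjTranspose_conjTranspose]
    rw [← neg_sub M Mᴴ, smul_neg, ← neg_smul]
    congr 1
    simp [div_eq_mul_inv]
  have hHK : M = H + Complex.I • K := by
    simp only [H, K, smul_smul]
    rw [show Complex.I * (-Complex.I / 2) = 1 / 2 by
      rw [mul_div_assoc', mul_neg, Complex.I_mul_I, neg_neg]]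
    ext i j
    simp only [Matrix.add_apply, Matrix.smul_apply, Matrix.sub_apply, smul_eq_mul]
    ring
  have hcomm : H * K = K * H := by
    simp only [H, K, Matrix.smul_mul, Matrix.mul_smul]
    rw [smul_comm]
    congr 2
    rw [add_mul, mul_sub, mul_sub, sub_mul, mul_add, mul_add, hM]
    abel
  let A : EuclideanSpace ℂ n →ₗ[ℂ] EuclideanSpace ℂ n := H.toEuclideanLin
  let B : EuclideanSpace ℂ n →ₗ[ℂ] EuclideanSpace ℂ n := K.toEuclideanLin
  have hA : A.IsSymmetric := isSymmetric_toEuclideanLin_iff.2 hH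
  have hB : B.IsSymmetric := isSymmetric_toEuclideanLin_iff.2 hK
  have hAB : Commute A B := by
    change A * B = B * A
    ext v i
    simp only [A, B, Module.End.mul_apply, toLpLin_apply, mulVec_mulVec, hcomm]
  let V : Eigenvalues A × Eigenvalues B → Submodule ℂ (EuclideanSpace ℂ n) :=
    fun i => eigenspace A i.1 ⊓ eigenspace B i.2
  have hV : OrthogonalFamily ℂ (fun i => V i) (fun i => (V i).subtypeₗᵢ) := by
    refine OrthogonalFamily.of_pairwise (fun i j hij => ?_)
    change V i ⟂ V j
    have hor : (i.1 : ℂ) ≠ j.1 ∨ (i.2 : ℂ) ≠ j.2 := by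
      by_contra hcon
      push Not at hcon
      exact hij (Prod.ext (Subtype.ext hcon.1) (Subtype.ext hcon.2))
    rcases hor with h | h
    · exact (hA.orthogonalFamily_eigenspaces.isOrtho h).mono inf_le_left inf_le_left
    · exact (hB.orthogonalFamily_eigenspaces.isOrtho h).mono inf_le_right inf_le_right
  have hint : DirectSum.IsInternal V := by
    rw [hV.isInternal_iff, Submodule.orthogonal_eq_bot_iff]
    rw [eq_top_iff, ← LinearMap.IsSymmetric.iSup_iSup_eigenspace_inf_eigenspace_eq_top_of_commute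
      hA hB hAB]
    refine iSup_le (fun α => iSup_le (fun γ => ?_))
    by_cases hα : eigenspace A α = ⊥
    · rw [hα, bot_inf_eq]
      exact bot_le
    · by_cases hγ : eigenspace B γ = ⊥
      · rw [hγ, inf_bot_eq]
        exact bot_le
      · let i : Eigenvalues A × Eigenvalues B := (⟨α, hα⟩, ⟨γ, hγ⟩)
        have hi : eigenspace A α ⊓ eigenspace B γ = V i := rfl
        rw [hi]
        exact le_iSup V i
  have hn : Module.finrank ℂ (EuclideanSpace ℂ n) = Fintype.card n := finrank_euclideanSpace
  let b0 := hint.subordinateOrthonormalBasis hn hV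
  let e := (Fintype.equivFin n).symm
  let b : OrthonormalBasis n ℂ (EuclideanSpace ℂ n) := b0.reindex e
  have hb0 : ∀ j : Fin (Fintype.card n), b0 j ∈ V (hint.subordinateOrthonormalBasisIndex hn j hV) :=
    fun j => hint.subordinateOrthonormalBasis_subordinate hn j hV
  let d : n → ℂ := fun i =>
    ((hint.subordinateOrthonormalBasisIndex hn (e.symm i) hV).1 : ℂ)
      + Complex.I * ((hint.subordinateOrthonormalBasisIndex hn (e.symm i) hV).2 : ℂ)
  obtain ⟨U, h1, h2, h3⟩ := diag_of_basis M b d (by
    intro i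
    have hbi : b i = b0 (e.symm i) := by simp [b]
    have hm := hb0 (e.symm i)
    rw [← hbi] at hm
    have hm1 := hm.1
    have hm2 := hm.2
    simp only [SetLike.mem_coe, mem_eigenspace_iff] at hm1 hm2
    have e1 : H *ᵥ (b i).ofLp = ((hint.subordinateOrthonormalBasisIndex hn (e.symm i) hV).1 : ℂ)
        • (b i).ofLp := by
      have := congrArg WithLp.ofLp hm1
      simpa [A, toLpLin_apply] using this
    have e2 : K *ᵥ (b i).ofLp = ((hint.subordinateOrthonormalBasisIndex hn (e.symm i) hV).2 : ℂ)
        • (b i).ofLp := by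
      have := congrArg WithLp.ofLp hm2
      simpa [B, toLpLin_apply] using this
    calc M *ᵥ (b i).ofLp = (H + Complex.I • K) *ᵥ (b i).ofLp := by rw [← hHK]
      _ = H *ᵥ (b i).ofLp + Complex.I • (K *ᵥ (b i).ofLp) := by
          rw [add_mulVec]
          congr 1
          exact smul_mulVec _ _ _
      _ = d i • (b i).ofLp := by rw [e1, e2, smul_smul, ← add_smul])
  exact ⟨U, d, h1, h2, h3⟩

end Pool.Agent.Helper45.NC
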