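import Mathlib
import Pool.Agent.Helper45.NC.Normal

set_option autoImplicit false
open scoped Matrix

namespace Pool.Agent.Helper45.NC

open Matrix Finset

/-- two linear maps with the same norms differ by a linear isometry of the target -/
theorem exists_isometry {V E : Type*} [AddCommGroup V] [Module ℂ V] [NormedAddCommGroup E]
    [InnerProductSpace ℂ E] [FiniteDimensional ℂ E] (f g : V →ₗ[ℂ] E)
    (h : ∀ v, ‖f v‖ = ‖g v‖) : ∃ L : E →ₗᵢ[ℂ] E, ∀ v, L (f v) = g v := by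
  have hker : LinearMap.ker f ≤ LinearMap.ker g := by
    intro v hv
    rw [LinearMap.mem_ker] at hv ⊢
    rw [← norm_eq_zero, ← h v, hv, norm_zero]
  let L0 : LinearMap.range f →ₗ[ℂ] E :=
    ((LinearMap.ker f).liftQ g hker).comp (f.quotKerEquivRange.symm : LinearMap.range f →ₗ[ℂ] _)
  have hL0 : ∀ v, L0 ⟨f v, LinearMap.mem_range_self f v⟩ = g v := by
    intro v
    have h1 : f.quotKerEquivRange.symm ⟨f v, LinearMap.mem_range_self f v⟩
        = (LinearMap.ker f).mkQ v := by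
      rw [LinearEquiv.symm_apply_eq]
      exact Subtype.ext rfl
    simp only [L0, LinearMap.comp_apply, LinearEquiv.coe_coe, h1]
    simp
  let L1 : LinearMap.range f →ₗᵢ[ℂ] E :=
    { L0 with
      norm_map' := by
        rintro ⟨_, v, rfl⟩
        have : L0 ⟨f v, LinearMap.mem_range_self f v⟩ = g v := hL0 v
        change ‖L0 ⟨f v, LinearMap.mem_range_self f v⟩‖ = ‖f v‖
        rw [this, h v] }
  refine ⟨L1.extend, fun v => ?_⟩
  have := L1.extend_apply ⟨f v, LinearMap.mem_range_self f v⟩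
  rw [show (f v) = ((⟨f v, LinearMap.mem_range_self f v⟩ : LinearMap.range f) : E) from rfl, this]
  exact hL0 v

/-- if `X Xᴴ = Y Yᴴ` then `Y = X U` with `U` unitary -/
theorem exists_unitary {ι κ : Type*} [Fintype ι] [Fintype κ] [DecidableEq ι] [DecidableEq κ]
    (X Y : Matrix ι κ ℂ) (h : X * Xᴴ = Y * Yᴴ) :
    ∃ U : Matrix κ κ ℂ, Uᴴ * U = 1 ∧ U * Uᴴ = 1 ∧ Y = X * U := by
  have hinner : ∀ x y : EuclideanSpace ℂ κ, inner ℂ x y = star x.ofLp ⬝ᵥ y.ofLp := by
    intro x y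
    rw [PiLp.inner_apply]
    simp only [dotProduct]
    refine Finset.sum_congr rfl (fun j _ => ?_)
    simp [mul_comm]
  have hnorm : ∀ (Z : Matrix ι κ ℂ) (v : EuclideanSpace ℂ ι),
      ((‖Matrix.toEuclideanLin Zᴴ v‖ : ℂ)) ^ 2 = star v.ofLp ⬝ᵥ ((Z * Zᴴ) *ᵥ v.ofLp) := by
    intro Z v
    have h1 := inner_self_eq_norm_sq_to_K (𝕜 := ℂ) (Matrix.toEuclideanLin Zᴴ v)
    rw [hinner] at h1
    rw [← Matrix.mulVec_mulVec, Matrix.dotProduct_mulVec]
    have h2 : (Matrix.toEuclideanLin Zᴴ v).ofLp = Zᴴ *ᵥ v.ofLp := rfl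
    rw [h2, Matrix.star_mulVec, Matrix.conjTranspose_conjTranspose] at h1
    exact h1.symm
  have hfg : ∀ v : EuclideanSpace ℂ ι,
      ‖Matrix.toEuclideanLin Xᴴ v‖ = ‖Matrix.toEuclideanLin Yᴴ v‖ := by
    intro v
    have h1 := hnorm X v
    rw [h, ← hnorm Y v] at h1
    have h2 : ‖Matrix.toEuclideanLin Xᴴ v‖ ^ 2 = ‖Matrix.toEuclideanLin Yᴴ v‖ ^ 2 := by
      exact_mod_cast h1
    exact (sq_eq_sq₀ (norm_nonneg _) (norm_nonneg _)).1 h2
  obtain ⟨L, hL⟩ := exists_isometry (Matrix.toEuclideanLin Xᴴ) (Matrix.toEuclideanLin Yᴴ) hfg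
  let M : Matrix κ κ ℂ := Matrix.toEuclideanLin.symm L.toLinearMap
  have hM : ∀ x : EuclideanSpace ℂ κ, (L x).ofLp = M *ᵥ x.ofLp := by
    intro x
    have h1 : Matrix.toEuclideanLin M = L.toLinearMap := LinearEquiv.apply_symm_apply _ _
    have h2 : L x = Matrix.toEuclideanLin M x := by rw [h1]; rfl
    rw [h2]; rfl
  have hMM : Mᴴ * M = 1 := by
    ext i j
    have h1 := L.inner_map_map (EuclideanSpace.single i (1 : ℂ)) (EuclideanSpace.single j (1 : ℂ))
    rw [hinner, hinner, hM, hM, Matrix.star_mulVec, ← Matrix.dotProduct_mulVec,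
      Matrix.mulVec_mulVec] at h1
    simpa [Matrix.one_apply, Pi.single_apply, eq_comm, dotProduct, Matrix.mulVec] using h1
  have hMM' : M * Mᴴ = 1 := mul_eq_one_comm.1 hMM
  have hMX : M * Xᴴ = Yᴴ := by
    ext k i
    have h1 := congrArg (fun x : EuclideanSpace ℂ κ => x.ofLp k) (hL (EuclideanSpace.single i (1 : ℂ)))
    simp only [hM] at h1
    have h2 : (Matrix.toEuclideanLin Xᴴ (EuclideanSpace.single i (1 : ℂ))).ofLp
        = Xᴴ *ᵥ (Pi.single i 1) := rfl
    have h3 : (Matrix.toEuclideanLin Yᴴ (EuclideanSpace.single i (1 : ℂ))).ofLp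
        = Yᴴ *ᵥ (Pi.single i 1) := rfl
    rw [h2, h3, Matrix.mulVec_mulVec, Matrix.mulVec_single_one, Matrix.mulVec_single_one] at h1
    exact h1
  refine ⟨Mᴴ, by rw [conjTranspose_conjTranspose]; exact hMM',
    by rw [conjTranspose_conjTranspose]; exact hMM, ?_⟩
  have := congrArg Matrix.conjTranspose hMX
  rw [conjTranspose_mul, conjTranspose_conjTranspose, conjTranspose_conjTranspose] at this
  exact this.symm

end Pool.Agent.Helper45.NC
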