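import Mathlib
import Pool.Agent.Helper45.NC.Level
import Pool.Agent.Helper45.NC.Polar

set_option autoImplicit false
open scoped Matrix

namespace Pool.Agent.Helper45.NC

open Matrix Finset

/-- Eigenvalue condition of codimension one: after removing a common part the remaining values
lie on a line and interlace there. -/
def OnLine (α β : Multiset ℂ) : Prop :=
  ∃ (δ : Multiset ℂ) (S T : Multiset ℝ) (z w : ℂ), w ≠ 0 ∧
    α = δ + S.map (fun s : ℝ => z + (s : ℂ) * w) ∧
    β = δ + T.map (fun s : ℝ => z + (s : ℂ) * w) ∧ Interlaces T S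

variable {ι m κ : Type*} [Fintype ι] [Fintype m] [DecidableEq ι] [DecidableEq m]
  [Fintype κ] [DecidableEq κ]

omit [DecidableEq ι] in
theorem ms_split {X : Type*} (a : ι → X) (q : ι → Prop) [DecidablePred q] :
    ms a = ms (fun i : {i // ¬ q i} => a i) + ms (fun i : {i // q i} => a i) := by
  have h1 := ms_equiv (Equiv.sumCompl q) a
  rw [← h1]
  have h2 : a ∘ (Equiv.sumCompl q) = Sum.elim (fun i : {i // q i} => a i)
      (fun i : {i // ¬ q i} => a i) := by
    funext x
    rcases x with x | x <;> simp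
  rw [h2, ms_sum, add_comm]

omit [DecidableEq κ] in
/-- the two off-diagonal blocks have the same Gram matrix -/
theorem gram_eq (W : Matrix m ι ℂ) (F : Matrix m κ ℂ) (h2 : W * Wᴴ + F * Fᴴ = 1)
    (a : ι → ℂ) (b : m → ℂ) (h3 : Wᴴ * diagonal b * W = diagonal a) :
    (Wᴴ * diagonal b * F) * (Wᴴ * diagonal b * F)ᴴ
      = (Wᴴ * (diagonal b)ᴴ * F) * (Wᴴ * (diagonal b)ᴴ * F)ᴴ := by
  have hF : F * Fᴴ = 1 - W * Wᴴ := by rw [← h2]; simp
  have h3' : Wᴴ * (diagonal b)ᴴ * W = (diagonal a)ᴴ := by
    rw [← h3]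
    simp only [conjTranspose_mul, conjTranspose_conjTranspose, Matrix.mul_assoc]
  simp only [conjTranspose_mul, conjTranspose_conjTranspose]
  have e1 : Wᴴ * diagonal b * F * (Fᴴ * ((diagonal b)ᴴ * W))
      = Wᴴ * (diagonal b * (diagonal b)ᴴ) * W - diagonal a * (diagonal a)ᴴ := by
    calc Wᴴ * diagonal b * F * (Fᴴ * ((diagonal b)ᴴ * W))
        = Wᴴ * diagonal b * (F * Fᴴ) * ((diagonal b)ᴴ * W) := by simp only [Matrix.mul_assoc]
      _ = Wᴴ * (diagonal b * (diagonal b)ᴴ) * W
          - (Wᴴ * diagonal b * W) * (Wᴴ * (diagonal b)ᴴ * W) := by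
          rw [hF, Matrix.mul_sub, Matrix.sub_mul, Matrix.mul_one]
          simp only [Matrix.mul_assoc]
      _ = _ := by rw [h3, h3']
  have e2 : Wᴴ * (diagonal b)ᴴ * F * (Fᴴ * (diagonal b * W))
      = Wᴴ * ((diagonal b)ᴴ * diagonal b) * W - (diagonal a)ᴴ * diagonal a := by
    calc Wᴴ * (diagonal b)ᴴ * F * (Fᴴ * (diagonal b * W))
        = Wᴴ * (diagonal b)ᴴ * (F * Fᴴ) * (diagonal b * W) := by simp only [Matrix.mul_assoc]
      _ = Wᴴ * ((diagonal b)ᴴ * diagonal b) * W
          - (Wᴴ * (diagonal b)ᴴ * W) * (Wᴴ * diagonal b * W) := by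
          rw [hF, Matrix.mul_sub, Matrix.sub_mul, Matrix.mul_one]
          simp only [Matrix.mul_assoc]
      _ = _ := by rw [h3, h3']
  rw [e1, e2]
  have e3 : ∀ x : ℂ, x * star x = star x * x := fun x => mul_comm _ _
  simp only [diagonal_conjTranspose, diagonal_mul_diagonal, Pi.star_apply, e3]

/-- square roots of unimodular numbers -/
theorem exists_omega (u : ℂ) (hu : star u * u = 1) : ∃ ω : ℂ, ω ^ 2 = u ∧ star ω * ω = 1 := by
  obtain ⟨ω, hω⟩ := IsAlgClosed.exists_pow_nat_eq u (n := 2) (by norm_num)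
  refine ⟨ω, hω, ?_⟩
  have h1 : (star ω * ω) ^ 2 = 1 := by
    rw [mul_pow, ← star_pow, hω, hu]
  have h2 : star ω * ω = ((‖ω‖ ^ 2 : ℝ) : ℂ) := by
    have := Complex.conj_mul' ω
    push_cast
    simpa using this
  rw [h2] at h1 ⊢
  have h3 : (‖ω‖ ^ 2 : ℝ) ^ 2 = 1 := by exact_mod_cast h1
  have h4 : (‖ω‖ ^ 2 : ℝ) = 1 := by
    nlinarith [sq_nonneg ‖ω‖, h3]
  rw [h4]; simp

/-- the imaginary part as a combination -/
theorem im_combo (ω z : ℂ) : 2 * Complex.I * (((ω * z).im : ℝ) : ℂ) = ω * z - star ω * star z := by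
  have h := Complex.sub_conj (ω * z)
  have h2 : (starRingEnd ℂ) (ω * z) = star ω * star z := by simp
  rw [h2] at h
  rw [h]
  push_cast
  ring

theorem diag_im {n : Type*} [DecidableEq n] (ω : ℂ) (c : n → ℂ) :
    diagonal (fun j => (((ω * c j).im : ℝ) : ℂ))
      = (2 * Complex.I)⁻¹ • (ω • diagonal c - star ω • (diagonal c)ᴴ) := by
  ext i j
  by_cases h : i = j
  · subst h
    simp only [diagonal_conjTranspose, Matrix.smul_apply, Matrix.sub_apply, diagonal_apply_eq,
      smul_eq_mul, Pi.star_apply]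
    rw [← im_combo]
    have : (2 * Complex.I) ≠ 0 := by simp
    field_simp
  · simp [diagonal_conjTranspose, h]

omit [Fintype ι] in
/-- real diagonal matrices compress nicely -/
theorem im_compress (W : Matrix m ι ℂ) (a : ι → ℂ) (b : m → ℂ) (ω : ℂ)
    (h3 : Wᴴ * diagonal b * W = diagonal a) :
    Wᴴ * diagonal (fun j => (((ω * b j).im : ℝ) : ℂ)) * W
      = diagonal (fun i => (((ω * a i).im : ℝ) : ℂ)) := by
  have h3' : Wᴴ * (diagonal b)ᴴ * W = (diagonal a)ᴴ := by
    rw [← h3]
    simp only [conjTranspose_mul, conjTranspose_conjTranspose, Matrix.mul_assoc]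
  rw [diag_im, diag_im]
  simp only [Matrix.mul_smul, Matrix.smul_mul, Matrix.mul_sub, Matrix.sub_mul]
  rw [h3, h3']

omit [DecidableEq κ] in
/-- a real diagonal matrix whose compression is diagonal and which does not mix with the
complement is supported on matching levels -/
theorem commute_level (W : Matrix m ι ℂ) (F : Matrix m κ ℂ) (h2 : W * Wᴴ + F * Fᴴ = 1)
    (l : m → ℝ) (s : ι → ℝ)
    (h3 : Wᴴ * diagonal (fun j => (l j : ℂ)) * W = diagonal (fun i => (s i : ℂ)))
    (h4 : Wᴴ * diagonal (fun j => (l j : ℂ)) * F = 0) (j : m) (i : ι) :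
    ((l j : ℂ) - s i) * W j i = 0 := by
  have h5 : Fᴴ * diagonal (fun j => (l j : ℂ)) * W = 0 := by
    have := congrArg Matrix.conjTranspose h4
    simp only [conjTranspose_mul, conjTranspose_conjTranspose, conjTranspose_zero] at this
    rw [← this, diagonal_conjTranspose, ← Matrix.mul_assoc]
    congr 3
    funext k
    simp
  have h6 : diagonal (fun j => (l j : ℂ)) * W = W * diagonal (fun i => (s i : ℂ)) := by
    calc diagonal (fun j => (l j : ℂ)) * W
        = (W * Wᴴ + F * Fᴴ) * (diagonal (fun j => (l j : ℂ)) * W) := by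
          rw [h2, Matrix.one_mul]
      _ = W * (Wᴴ * diagonal (fun j => (l j : ℂ)) * W)
          + F * (Fᴴ * diagonal (fun j => (l j : ℂ)) * W) := by
          rw [Matrix.add_mul]; simp only [Matrix.mul_assoc]
      _ = _ := by rw [h3, h5, Matrix.mul_zero, add_zero]
  have h7 := congrFun (congrFun h6 j) i
  rw [diagonal_mul, mul_diagonal] at h7
  rw [sub_mul, h7]
  ring

/-- necessity in codimension one -/
theorem nec_one (a : ι → ℂ) (b : m → ℂ) (hD : Dil a b)
    (hc : Fintype.card m = Fintype.card ι + 1) : OnLine (ms a) (ms b) := by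
  classical
  obtain ⟨W, h1, h3⟩ := hD
  obtain ⟨F, hF1, hF2, h2⟩ := complete W h1 1 hc
  obtain ⟨U, hU1, hU2, hU⟩ := exists_unitary _ _ (gram_eq W F h2 a b h3)
  obtain ⟨ω, hω, hω1⟩ := exists_omega (U 0 0) (by
    have := congrFun (congrFun hU1 0) 0
    simpa [Matrix.mul_apply] using this)
  -- the distinguished direction
  have hX : Wᴴ * diagonal (fun j => (((ω * b j).im : ℝ) : ℂ)) * F = 0 := by
    rw [diag_im]
    simp only [Matrix.mul_smul, Matrix.smul_mul, Matrix.mul_sub, Matrix.sub_mul]
    rw [hU]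
    have e : Wᴴ * diagonal b * F * U = (U 0 0) • (Wᴴ * diagonal b * F) := by
      ext i k
      have hk : k = 0 := Subsingleton.elim _ _
      subst hk
      rw [Matrix.mul_apply]
      simp [mul_comm]
    rw [e, smul_smul, ← hω]
    have : star ω * ω ^ 2 = ω := by rw [pow_two, ← mul_assoc, hω1, one_mul]
    rw [this, sub_self, smul_zero]
  let η : m → ℝ := fun j => (ω * b j).im
  let ν : ι → ℝ := fun i => (ω * a i).im
  have hWν : Wᴴ * diagonal (fun j => (η j : ℂ)) * W = diagonal (fun i => (ν i : ℂ)) :=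
    im_compress W a b ω h3
  have hlev := commute_level W F h2 η ν hWν hX
  -- the eigenvalue of the distinguished direction
  let h : ℝ := ∑ j, η j * ‖F j 0‖ ^ 2
  have hFF : (Fᴴ * diagonal (fun j => (η j : ℂ)) * F) 0 0 = (h : ℂ) := by
    rw [Matrix.mul_apply]
    simp only [mul_diagonal, conjTranspose_apply, h]
    push_cast
    refine Finset.sum_congr rfl (fun j _ => ?_)
    have := Complex.conj_mul' (F j 0)
    have h' : star (F j 0) * F j 0 = (‖F j 0‖ : ℂ) ^ 2 := by simpa using this
    calc star (F j 0) * (η j : ℂ) * F j 0 = (η j : ℂ) * (star (F j 0) * F j 0) := by ring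
      _ = _ := by rw [h']
  have hFeig : ∀ j, ((η j : ℂ) - h) * F j 0 = 0 := by
    intro j
    have h6 : diagonal (fun j => (η j : ℂ)) * F
        = F * (Fᴴ * diagonal (fun j => (η j : ℂ)) * F) := by
      calc diagonal (fun j => (η j : ℂ)) * F
          = (W * Wᴴ + F * Fᴴ) * (diagonal (fun j => (η j : ℂ)) * F) := by
            rw [h2, Matrix.one_mul]
        _ = W * (Wᴴ * diagonal (fun j => (η j : ℂ)) * F)
            + F * (Fᴴ * diagonal (fun j => (η j : ℂ)) * F) := by
            rw [Matrix.add_mul]; simp only [Matrix.mul_assoc]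
        _ = _ := by rw [hX, Matrix.mul_zero, zero_add]
    have h7 := congrFun (congrFun h6 j) 0
    rw [diagonal_mul, Matrix.mul_apply] at h7
    simp only [Finset.univ_unique, Fin.default_eq_zero, Finset.sum_singleton] at h7
    rw [hFF] at h7
    rw [sub_mul, h7]
    ring
  have hlevel := level W F h1 h2 a b h3 (fun j => η j = h) (fun i => ν i = h)
    (by
      intro j i hne
      have := hlev j i
      rcases mul_eq_zero.1 this with h8 | h8
      · exfalso
        apply hne
        have : η j = ν i := by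
          have := sub_eq_zero.1 h8
          exact_mod_cast this
        rw [this]
      · exact h8)
    (by
      intro j k hj
      have hk : k = 0 := Subsingleton.elim _ _
      subst hk
      rcases mul_eq_zero.1 (hFeig j) with h8 | h8
      · exfalso
        apply hj
        have := sub_eq_zero.1 h8
        exact_mod_cast this
      · exact h8) hc
  obtain ⟨g1, g3, g4, g5⟩ := hlevel
  have hω0 : star ω ≠ 0 := by
    intro hh
    rw [hh, zero_mul] at hω1
    exact zero_ne_one hω1
  have hrec : ∀ x : ℂ, (ω * x).im = h →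
      star ω * Complex.I * h + (((ω * x).re : ℝ) : ℂ) * star ω = x := by
    intro x hx
    have h9 : ω * x = (((ω * x).re : ℝ) : ℂ) + ((h : ℝ) : ℂ) * Complex.I := by
      conv_lhs => rw [← Complex.re_add_im (ω * x)]
      rw [hx]
    calc star ω * Complex.I * h + (((ω * x).re : ℝ) : ℂ) * star ω
        = star ω * ((((ω * x).re : ℝ) : ℂ) + ((h : ℝ) : ℂ) * Complex.I) := by ring
      _ = star ω * (ω * x) := by rw [← h9]
      _ = x := by rw [← mul_assoc, hω1, one_mul]
  have hre : ∀ x : ℂ, (ω * x).im = h → (((ω * x).re : ℝ) : ℂ) = ω * x - (h : ℂ) * Complex.I := by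
    intro x hx
    rw [← hx]
    nth_rewrite 2 [← Complex.re_add_im (ω * x)]
    ring
  refine ⟨ms (fun i : {i // ¬ ν i = h} => a i),
    ms (fun i : {i // ν i = h} => (ω * a i).re), ms (fun j : {j // η j = h} => (ω * b j).re),
    star ω * Complex.I * h, star ω, hω0, ?_, ?_, ?_⟩
  · rw [ms_map, ms_split a (fun i => ν i = h)]
    congr 2
    funext i
    exact (hrec (a i) i.2).symm
  · rw [ms_map, ms_split b (fun j => η j = h), g4]
    congr 2
    funext j
    exact (hrec (b j) j.2).symm
  · let V : Matrix {j // η j = h} {i // ν i = h} ℂ := W.submatrix Subtype.val Subtype.val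
    refine interlaces_of_isometry _ _ V ?_ ?_ g5
    · ext i i'
      rw [Matrix.mul_apply, Matrix.one_apply]
      simp only [conjTranspose_apply, V, submatrix_apply]
      exact g1 i i'
    · ext i i'
      rw [Matrix.mul_apply]
      simp only [mul_diagonal, conjTranspose_apply, diagonal_apply, V, submatrix_apply]
      have q1 := g1 i i'
      have q3 := g3 i i'
      have q4 : ∀ j : {j // η j = h}, (((ω * b j).re : ℝ) : ℂ) = ω * b j - (h : ℂ) * Complex.I :=
        fun j => hre (b j) j.2
      have q5 : ∑ j : {j // η j = h}, star (W j i) * (((ω * b j).re : ℝ) : ℂ) * W j i'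
          = ω * ∑ j : {j // η j = h}, star (W j i) * b j * W j i'
            - (h : ℂ) * Complex.I * ∑ j : {j // η j = h}, star (W j i) * W j i' := by
        rw [Finset.mul_sum, Finset.mul_sum, ← Finset.sum_sub_distrib]
        refine Finset.sum_congr rfl (fun j _ => ?_)
        rw [q4 j]
        ring
      rw [q5, q1, q3]
      by_cases hii : i = i'
      · subst hii
        simp only [if_true]
        rw [hre (a i) i.2, mul_one]
      · simp [hii]

end Pool.Agent.Helper45.NC
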