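import Mathlib
import Pool.Agent.Helper45.NC.NecOne
import Pool.Agent.Helper45.NC.ArrowMat

set_option autoImplicit false
open scoped Matrix

namespace Pool.Agent.Helper45.NC

open Matrix Finset

/-- Eigenvalue condition of codimension two: after removing a common part the remaining values
lie on a hyperbola and interlace there together with the two points at infinity. -/
def OnHyperbola (α β : Multiset ℂ) : Prop :=
  ∃ (δ : Multiset ℂ) (S T : Multiset ℝ) (z u v : ℂ), (u * star v).im ≠ 0 ∧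
    (0 : ℝ) ∉ S ∧ (0 : ℝ) ∉ T ∧
    α = δ + S.map (fun s : ℝ => z + (s : ℂ) * u + (s : ℂ)⁻¹ * v) ∧
    β = δ + T.map (fun s : ℝ => z + (s : ℂ) * u + (s : ℂ)⁻¹ * v) ∧
    Interlaces T (0 ::ₘ S)

variable {ι m κ : Type*} [Fintype ι] [Fintype m] [DecidableEq ι] [DecidableEq m]
  [Fintype κ] [DecidableEq κ]

/-- if some direction orthogonal to the given subspace is an eigenvector of a real part
combination then there is an intermediate normal compression -/
theorem chain_of_eig (W : Matrix m ι ℂ) (f g : Matrix m Unit ℂ) (hW : Wᴴ * W = 1)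
    (hg : gᴴ * g = 1) (hWg : Wᴴ * g = 0) (hWf : Wᴴ * f = 0) (hgf : gᴴ * f = 0)
    (hsum : W * Wᴴ + g * gᴴ + f * fᴴ = 1) (a : ι → ℂ) (b : m → ℂ)
    (h3 : Wᴴ * diagonal b * W = diagonal a) (ω : ℂ) (hω : star ω * ω = 1) (h : ℝ)
    (heig : diagonal (fun j => (((ω * b j).im : ℝ) : ℂ)) * f = (h : ℂ) • f) :
    ∃ c : ι ⊕ Unit → ℂ, Dil a c ∧ Dil c b := by
  classical
  let V : Matrix m (ι ⊕ Unit) ℂ := fromCols W g
  have hVH : Vᴴ = fromRows Wᴴ gᴴ := conjTranspose_fromCols_eq_fromRows_conjTranspose W g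
  have hgW : gᴴ * W = 0 := by
    have := congrArg Matrix.conjTranspose hWg
    simpa using this
  have hV1 : Vᴴ * V = 1 := by
    rw [hVH]
    simp only [V]
    rw [fromRows_mul_fromCols, hW, hWg, hgW, hg, fromBlocks_one]
  have hV2 : V * Vᴴ = 1 - f * fᴴ := by
    rw [hVH]
    simp only [V]
    rw [fromCols_mul_fromRows, ← hsum]
    simp
  have hVf : Vᴴ * f = 0 := by
    rw [hVH, fromRows_mul, hWf, hgf]
    ext i j
    rcases i with i | i <;> simp
  set D : Matrix m m ℂ := diagonal b with hD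
  have hDD : D * Dᴴ = Dᴴ * D := by
    rw [hD, diagonal_conjTranspose, diagonal_mul_diagonal, diagonal_mul_diagonal]
    congr 1
    funext i
    exact mul_comm _ _
  let C : Matrix (ι ⊕ Unit) (ι ⊕ Unit) ℂ := Vᴴ * D * V
  have hCH : Cᴴ = Vᴴ * Dᴴ * V := by
    simp only [C, conjTranspose_mul, conjTranspose_conjTranspose, Matrix.mul_assoc]
  have e1 : C * Cᴴ = Vᴴ * (D * Dᴴ) * V - (Vᴴ * D * f) * (Vᴴ * D * f)ᴴ := by
    rw [hCH]
    calc Vᴴ * D * V * (Vᴴ * Dᴴ * V) = Vᴴ * D * (V * Vᴴ) * (Dᴴ * V) := by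
          simp only [Matrix.mul_assoc]
      _ = _ := by
          rw [hV2, Matrix.mul_sub, Matrix.sub_mul, Matrix.mul_one]
          simp only [conjTranspose_mul, conjTranspose_conjTranspose, Matrix.mul_assoc]
  have e2 : Cᴴ * C = Vᴴ * (Dᴴ * D) * V - (Vᴴ * Dᴴ * f) * (Vᴴ * Dᴴ * f)ᴴ := by
    rw [hCH]
    calc Vᴴ * Dᴴ * V * (Vᴴ * D * V) = Vᴴ * Dᴴ * (V * Vᴴ) * (D * V) := by
          simp only [Matrix.mul_assoc]
      _ = _ := by
          rw [hV2, Matrix.mul_sub, Matrix.sub_mul, Matrix.mul_one]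
          simp only [conjTranspose_mul, conjTranspose_conjTranspose, Matrix.mul_assoc]
  have e3 : ω • (Vᴴ * D * f) - star ω • (Vᴴ * Dᴴ * f) = 0 := by
    have h5 : (2 * Complex.I)⁻¹ • (ω • (Vᴴ * D * f) - star ω • (Vᴴ * Dᴴ * f)) = 0 := by
      have h6 : Vᴴ * (diagonal (fun j => (((ω * b j).im : ℝ) : ℂ)) * f) = 0 := by
        rw [heig, Matrix.mul_smul, hVf, smul_zero]
      rw [diag_im, ← hD] at h6
      rw [← h6]
      simp only [Matrix.smul_mul, Matrix.mul_smul, Matrix.sub_mul, Matrix.mul_sub, Matrix.mul_assoc]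
    have h7 : (2 * Complex.I)⁻¹ ≠ 0 := inv_ne_zero (by simp)
    exact (smul_eq_zero.1 h5).resolve_left h7
  have e4 : Vᴴ * D * f = (star ω * star ω) • (Vᴴ * Dᴴ * f) := by
    have h5 := congrArg (fun M => star ω • M) e3
    simp only [smul_sub, smul_smul, smul_zero, hω, one_smul] at h5
    exact sub_eq_zero.1 h5
  have hC : Cᴴ * C = C * Cᴴ := by
    rw [e1, e2, e4, hDD]
    congr 1
    rw [conjTranspose_smul, Matrix.smul_mul, Matrix.mul_smul, smul_smul]
    have : star ω * star ω * star (star ω * star ω) = 1 := by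
      rw [star_mul, star_star]
      calc star ω * star ω * (ω * ω) = (star ω * ω) * (star ω * ω) := by ring
        _ = 1 := by rw [hω, one_mul]
    rw [this, one_smul]
  obtain ⟨R, c, hR1, hR2, hR3⟩ := normal_diag C hC
  refine ⟨c, ?_, ?_⟩
  · let J : Matrix (ι ⊕ Unit) ι ℂ := (1 : Matrix (ι ⊕ Unit) (ι ⊕ Unit) ℂ).submatrix id Sum.inl
    have hJ : Jᴴ * J = 1 := by
      ext i j
      simp [J, Matrix.mul_apply, Matrix.one_apply]
    have hVJ : V * J = W := by
      ext i j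
      simp [J, V, Matrix.mul_apply, Matrix.one_apply]
    have hCR : R * diagonal c * Rᴴ = C := by
      rw [← hR3, Matrix.mul_assoc, hR2, Matrix.mul_one]
    refine ⟨Rᴴ * J, ?_, ?_⟩
    · rw [conjTranspose_mul, conjTranspose_conjTranspose]
      calc Jᴴ * R * (Rᴴ * J) = Jᴴ * (R * Rᴴ) * J := by simp only [Matrix.mul_assoc]
        _ = 1 := by rw [hR2, Matrix.mul_one, hJ]
    · rw [conjTranspose_mul, conjTranspose_conjTranspose]
      calc Jᴴ * R * diagonal c * (Rᴴ * J) = Jᴴ * (R * diagonal c * Rᴴ) * J := by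
            simp only [Matrix.mul_assoc]
        _ = (V * J)ᴴ * D * (V * J) := by
            rw [hCR]
            simp only [C, conjTranspose_mul, Matrix.mul_assoc]
        _ = diagonal a := by rw [hVJ, h3]
  · refine ⟨V * R, ?_, ?_⟩
    · rw [conjTranspose_mul]
      calc Rᴴ * Vᴴ * (V * R) = Rᴴ * (Vᴴ * V) * R := by simp only [Matrix.mul_assoc]
        _ = 1 := by rw [hV1, Matrix.mul_one, hR1]
    · rw [conjTranspose_mul]
      calc Rᴴ * Vᴴ * diagonal b * (V * R) = Rᴴ * (C * R) := by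
            simp only [C, Matrix.mul_assoc, hD]
        _ = diagonal c := by rw [hR3, ← Matrix.mul_assoc, hR1, Matrix.one_mul]

/-- columns version of the previous lemma -/
theorem chain_cols (W : Matrix m ι ℂ) (F : Matrix m (Fin 2) ℂ) (hW : Wᴴ * W = 1)
    (hF : Fᴴ * F = 1) (hWF : Wᴴ * F = 0) (hsum : W * Wᴴ + F * Fᴴ = 1) (a : ι → ℂ) (b : m → ℂ)
    (h3 : Wᴴ * diagonal b * W = diagonal a) (ω : ℂ) (hω : star ω * ω = 1) (h : ℝ)
    (k k' : Fin 2) (hk : k ≠ k') (heig : ∀ j, ((((ω * b j).im : ℝ) : ℂ) - h) * F j k = 0) :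
    ∃ c : ι ⊕ Unit → ℂ, Dil a c ∧ Dil c b := by
  have hFe : ∀ x y : Fin 2, ∑ j, star (F j x) * F j y = if x = y then 1 else 0 := by
    intro x y
    have := congrFun (congrFun hF x) y
    simpa [Matrix.mul_apply, Matrix.one_apply] using this
  have hWFe : ∀ (i : ι) (y : Fin 2), ∑ j, star (W j i) * F j y = 0 := by
    intro i y
    have := congrFun (congrFun hWF i) y
    simpa [Matrix.mul_apply] using this
  refine chain_of_eig W (F.submatrix id (fun _ => k)) (F.submatrix id (fun _ => k')) hW ?_ ?_ ?_ ?_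
    ?_ a b h3 ω hω h ?_
  · ext i j
    rw [Matrix.mul_apply]
    simp only [conjTranspose_apply, submatrix_apply, id]
    rw [hFe]
    simp
  · ext i j
    rw [Matrix.mul_apply]
    simp only [conjTranspose_apply, submatrix_apply, id]
    rw [hWFe]
    rfl
  · ext i j
    rw [Matrix.mul_apply]
    simp only [conjTranspose_apply, submatrix_apply, id]
    rw [hWFe]
    rfl
  · ext i j
    rw [Matrix.mul_apply]
    simp only [conjTranspose_apply, submatrix_apply, id]
    rw [hFe, if_neg (Ne.symm hk)]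
    rfl
  · rw [← hsum, add_assoc]
    congr 1
    ext i j
    rw [Matrix.add_apply, Matrix.mul_apply, Matrix.mul_apply, Matrix.mul_apply]
    simp only [conjTranspose_apply, submatrix_apply, id, Fin.sum_univ_two, Finset.univ_unique,
      Finset.sum_singleton]
    fin_cases k <;> fin_cases k' <;> simp_all [add_comm]
  · ext j x
    rw [diagonal_mul]
    simp only [submatrix_apply, id, Matrix.smul_apply, smul_eq_mul]
    have := heig j
    rw [sub_mul] at this
    exact sub_eq_zero.1 this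

omit [DecidableEq ι] in
/-- expansion of a vector in the orthonormal basis given by `W` and `F` -/
theorem expand (W : Matrix m ι ℂ) (F : Matrix m (Fin 2) ℂ) (hsum : W * Wᴴ + F * Fᴴ = 1)
    (x : m → ℂ) (hx : ∀ i, ∑ j, star (W j i) * x j = 0) (j : m) :
    x j = F j 0 * (∑ j', star (F j' 0) * x j') + F j 1 * (∑ j', star (F j' 1) * x j') := by
  have h1 : (W * Wᴴ + F * Fᴴ) *ᵥ x = x := by rw [hsum, one_mulVec]
  have h2 := congrFun h1 j
  rw [add_mulVec, ← mulVec_mulVec, ← mulVec_mulVec] at h2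
  have h3 : Wᴴ *ᵥ x = 0 := by
    ext i
    simp only [Matrix.mulVec, dotProduct, conjTranspose_apply, Pi.zero_apply]
    exact hx i
  rw [h3, mulVec_zero, zero_add] at h2
  rw [← h2]
  simp only [Matrix.mulVec, dotProduct, conjTranspose_apply, Fin.sum_univ_two]

omit [DecidableEq m] in
theorem sum_sub (p : m → Prop) [DecidablePred p] (g : m → ℂ) (hg : ∀ j, ¬ p j → g j = 0) :
    ∑ j : {j // p j}, g j = ∑ j, g j := by
  rw [← Fintype.sum_subtype_add_sum_subtype p g]
  have : ∑ j : {j // ¬ p j}, g j = 0 := Finset.sum_eq_zero (fun j _ => hg j j.2)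
  rw [this, add_zero]

/-- recovering a number from two of its real coordinates -/
theorem rec_coord (ω₀ ω₁ x : ℂ) (hD : (ω₀ * star ω₁).im ≠ 0) :
    x = (star ω₁ * (((ω₀ * x).im : ℝ) : ℂ) - star ω₀ * (((ω₁ * x).im : ℝ) : ℂ)) *
      ((((ω₀ * star ω₁).im : ℝ) : ℂ))⁻¹ := by
  have hD' : ((((ω₀ * star ω₁).im : ℝ) : ℂ)) ≠ 0 := by exact_mod_cast hD
  have e0 := im_combo ω₀ x
  have e1 := im_combo ω₁ x
  have e2 := im_combo ω₀ (star ω₁)
  rw [star_star] at e2
  have h2I : (2 * Complex.I) ≠ 0 := by simp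
  have key : x * ((((ω₀ * star ω₁).im : ℝ) : ℂ))
      = star ω₁ * (((ω₀ * x).im : ℝ) : ℂ) - star ω₀ * (((ω₁ * x).im : ℝ) : ℂ) := by
    apply mul_left_cancel₀ h2I
    calc 2 * Complex.I * (x * ((((ω₀ * star ω₁).im : ℝ) : ℂ)))
        = x * (2 * Complex.I * ((((ω₀ * star ω₁).im : ℝ) : ℂ))) := by ring
      _ = x * (ω₀ * star ω₁ - star ω₀ * ω₁) := by rw [e2]
      _ = star ω₁ * (ω₀ * x - star ω₀ * star x) - star ω₀ * (ω₁ * x - star ω₁ * star x) := by
          ring
      _ = star ω₁ * (2 * Complex.I * (((ω₀ * x).im : ℝ) : ℂ))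
          - star ω₀ * (2 * Complex.I * (((ω₁ * x).im : ℝ) : ℂ)) := by rw [e0, e1]
      _ = _ := by ring
  rw [← key, mul_assoc, mul_inv_cancel₀ hD', mul_one]

/-- the hyperbola case of the necessity in codimension two -/
theorem hyp_case (W : Matrix m ι ℂ) (F : Matrix m (Fin 2) ℂ) (h1 : Wᴴ * W = 1)
    (hF1 : Fᴴ * F = 1) (hF2 : Wᴴ * F = 0) (h2 : W * Wᴴ + F * Fᴴ = 1) (a : ι → ℂ) (b : m → ℂ)
    (h3 : Wᴴ * diagonal b * W = diagonal a) (hc : Fintype.card m = Fintype.card ι + 2)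
    (ω₀ ω₁ : ℂ) (hω₀ : star ω₀ * ω₀ = 1) (hω₁ : star ω₁ * ω₁ = 1) (hne : ω₀ ^ 2 ≠ ω₁ ^ 2)
    (k₀ k₁ : ℝ) (γ₀ γ₁ : ℂ) (hγ₀ : γ₀ ≠ 0) (hγ₁ : γ₁ ≠ 0)
    (hE₀ : ∀ j, ((((ω₀ * b j).im : ℝ) : ℂ) - k₀) * F j 0 = γ₀ * F j 1)
    (hE₁ : ∀ j, ((((ω₁ * b j).im : ℝ) : ℂ) - k₁) * F j 1 = γ₁ * F j 0) :
    OnHyperbola (ms a) (ms b) := by
  classical
  have hWF : ∀ (i : ι) (y : Fin 2), ∑ j, star (W j i) * F j y = 0 := by
    intro i y
    have := congrFun (congrFun hF2 i) y
    simpa [Matrix.mul_apply] using this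
  have hFF : ∀ x y : Fin 2, ∑ j, star (F j x) * F j y = if x = y then 1 else 0 := by
    intro x y
    have := congrFun (congrFun hF1 x) y
    simpa [Matrix.mul_apply, Matrix.one_apply] using this
  -- shifted coordinates
  let l₀ : m → ℝ := fun j => (ω₀ * b j).im - k₀
  let l₁ : m → ℝ := fun j => (ω₁ * b j).im - k₁
  let n₀ : ι → ℝ := fun i => (ω₀ * a i).im - k₀
  let n₁ : ι → ℝ := fun i => (ω₁ * a i).im - k₁
  have hl₀ : ∀ j, (l₀ j : ℂ) * F j 0 = γ₀ * F j 1 := by
    intro j; rw [← hE₀ j]; simp only [l₀]; push_cast; ring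
  have hl₁ : ∀ j, (l₁ j : ℂ) * F j 1 = γ₁ * F j 0 := by
    intro j; rw [← hE₁ j]; simp only [l₁]; push_cast; ring
  -- compressions of the shifted coordinates
  have hshift : ∀ (ω : ℂ) (k : ℝ),
      Wᴴ * diagonal (fun j => ((((ω * b j).im - k : ℝ)) : ℂ)) * W
        = diagonal (fun i => ((((ω * a i).im - k : ℝ)) : ℂ)) := by
    intro ω k
    have e1 := im_compress W a b ω h3
    have e2 : diagonal (fun j => ((((ω * b j).im - k : ℝ)) : ℂ))
        = diagonal (fun j => (((ω * b j).im : ℝ) : ℂ)) - (k : ℂ) • (1 : Matrix m m ℂ) := by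
      ext i j
      by_cases h : i = j
      · subst h; simp
      · simp [h]
    have e3 : diagonal (fun j => ((((ω * a j).im - k : ℝ)) : ℂ))
        = diagonal (fun j => (((ω * a j).im : ℝ) : ℂ)) - (k : ℂ) • (1 : Matrix ι ι ℂ) := by
      ext i j
      by_cases h : i = j
      · subst h; simp
      · simp [h]
    rw [e2, e3, Matrix.mul_sub, Matrix.sub_mul, e1, Matrix.mul_smul, Matrix.smul_mul,
      Matrix.mul_one, h1]
  have hN₀ : Wᴴ * diagonal (fun j => (l₀ j : ℂ)) * W = diagonal (fun i => (n₀ i : ℂ)) :=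
    hshift ω₀ k₀
  have hN₁ : Wᴴ * diagonal (fun j => (l₁ j : ℂ)) * W = diagonal (fun i => (n₁ i : ℂ)) :=
    hshift ω₁ k₁
  -- mixing entries
  have hM₀ : ∀ i, ∑ j, star (W j i) * ((l₀ j : ℂ) * F j 0) = 0 := by
    intro i
    simp only [hl₀]
    have := hWF i 1
    calc ∑ j, star (W j i) * (γ₀ * F j 1) = γ₀ * ∑ j, star (W j i) * F j 1 := by
          rw [Finset.mul_sum]; exact Finset.sum_congr rfl (fun j _ => by ring)
      _ = 0 := by rw [this, mul_zero]
  have hM₁ : ∀ i, ∑ j, star (W j i) * ((l₁ j : ℂ) * F j 1) = 0 := by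
    intro i
    simp only [hl₁]
    have := hWF i 0
    calc ∑ j, star (W j i) * (γ₁ * F j 0) = γ₁ * ∑ j, star (W j i) * F j 0 := by
          rw [Finset.mul_sum]; exact Finset.sum_congr rfl (fun j _ => by ring)
      _ = 0 := by rw [this, mul_zero]
  -- the constant of the hyperbola
  obtain ⟨j₀, hj₀⟩ : ∃ j, F j 0 ≠ 0 := by
    by_contra hcon
    push Not at hcon
    have := hFF 0 0
    simp [hcon] at this
  have hprod : ∀ j, ((l₀ j * l₁ j : ℝ) : ℂ) * F j 0 = γ₀ * γ₁ * F j 0 := by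
    intro j
    push_cast
    calc (l₀ j : ℂ) * (l₁ j : ℂ) * F j 0 = (l₁ j : ℂ) * ((l₀ j : ℂ) * F j 0) := by ring
      _ = γ₀ * ((l₁ j : ℂ) * F j 1) := by rw [hl₀]; ring
      _ = _ := by rw [hl₁]; ring
  have hprod' : ∀ j, ((l₀ j * l₁ j : ℝ) : ℂ) * F j 1 = γ₀ * γ₁ * F j 1 := by
    intro j
    push_cast
    calc (l₀ j : ℂ) * (l₁ j : ℂ) * F j 1 = (l₀ j : ℂ) * ((l₁ j : ℂ) * F j 1) := by ring
      _ = γ₁ * ((l₀ j : ℂ) * F j 0) := by rw [hl₁]; ring
      _ = _ := by rw [hl₀]; ring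
  set K : ℝ := l₀ j₀ * l₁ j₀ with hK
  have hKγ : (K : ℂ) = γ₀ * γ₁ := mul_right_cancel₀ hj₀ (hprod j₀)
  have hK0 : K ≠ 0 := by
    intro h
    rw [h] at hKγ
    simp only [Complex.ofReal_zero] at hKγ
    rcases mul_eq_zero.1 hKγ.symm with h | h
    · exact hγ₀ h
    · exact hγ₁ h
  have hFlev : ∀ j (k : Fin 2), ¬ (l₀ j * l₁ j = K) → F j k = 0 := by
    intro j k hj
    have h4 : (((l₀ j * l₁ j : ℝ) : ℂ) - K) * F j k = 0 := by
      rw [sub_mul, hKγ]
      fin_cases k
      · exact sub_eq_zero.2 (hprod j)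
      · exact sub_eq_zero.2 (hprod' j)
    rcases mul_eq_zero.1 h4 with h5 | h5
    · exact absurd (by exact_mod_cast (sub_eq_zero.1 h5)) hj
    · exact h5
  have hWlev : ∀ j i, (((l₀ j * l₁ j : ℝ) : ℂ) - ((n₀ i * n₁ i : ℝ) : ℂ)) * W j i = 0 := by
    apply commute_level W F h2 (fun j => l₀ j * l₁ j) (fun i => n₀ i * n₁ i)
    · have e1 : diagonal (fun j => ((l₀ j * l₁ j : ℝ) : ℂ))
          = diagonal (fun j => (l₀ j : ℂ)) * diagonal (fun j => (l₁ j : ℂ)) := by
        rw [diagonal_mul_diagonal]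
        congr 1
        funext j
        push_cast
        rfl
      have e2 : (Wᴴ * diagonal (fun j => (l₀ j : ℂ)) * F)
          * (Fᴴ * diagonal (fun j => (l₁ j : ℂ)) * W) = 0 := by
        ext i i'
        rw [Matrix.mul_apply, Fin.sum_univ_two]
        have e3 : (Wᴴ * diagonal (fun j => (l₀ j : ℂ)) * F) i 0 = 0 := by
          rw [Matrix.mul_apply]
          simp only [mul_diagonal, conjTranspose_apply]
          rw [← hM₀ i]
          exact Finset.sum_congr rfl (fun j _ => by ring)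
        have e4 : (Fᴴ * diagonal (fun j => (l₁ j : ℂ)) * W) 1 i' = 0 := by
          rw [Matrix.mul_apply]
          simp only [mul_diagonal, conjTranspose_apply]
          have := congrArg star (hM₁ i')
          rw [star_sum, star_zero] at this
          rw [← this]
          refine Finset.sum_congr rfl (fun j _ => ?_)
          rw [star_mul, star_mul, star_star]
          have : star (l₁ j : ℂ) = (l₁ j : ℂ) := Complex.conj_ofReal _
          rw [this]
        rw [e3, e4]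
        simp
      calc Wᴴ * diagonal (fun j => ((l₀ j * l₁ j : ℝ) : ℂ)) * W
          = Wᴴ * diagonal (fun j => (l₀ j : ℂ)) * (W * Wᴴ + F * Fᴴ)
              * (diagonal (fun j => (l₁ j : ℂ)) * W) := by
            rw [h2, Matrix.mul_one, e1]
            simp only [Matrix.mul_assoc]
        _ = (Wᴴ * diagonal (fun j => (l₀ j : ℂ)) * W) * (Wᴴ * diagonal (fun j => (l₁ j : ℂ)) * W)
            + (Wᴴ * diagonal (fun j => (l₀ j : ℂ)) * F)
              * (Fᴴ * diagonal (fun j => (l₁ j : ℂ)) * W) := by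
            rw [Matrix.mul_add, Matrix.add_mul]
            simp only [Matrix.mul_assoc]
        _ = diagonal (fun i => ((n₀ i * n₁ i : ℝ) : ℂ)) := by
            rw [e2, hN₀, hN₁, add_zero, diagonal_mul_diagonal]
            congr 1
            funext j
            push_cast
            rfl
    · ext i k
      rw [Matrix.mul_apply]
      simp only [mul_diagonal, conjTranspose_apply, Matrix.zero_apply]
      have e1 : ∀ j, star (W j i) * ((l₀ j * l₁ j : ℝ) : ℂ) * F j k
          = (K : ℂ) * (star (W j i) * F j k) := by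
        intro j
        by_cases hj : l₀ j * l₁ j = K
        · rw [hj]; ring
        · rw [hFlev j k hj]; ring
      rw [Finset.sum_congr rfl (fun j _ => e1 j), ← Finset.mul_sum, hWF, mul_zero]
  have hWsup : ∀ j i, ¬ ((l₀ j * l₁ j = K) ↔ (n₀ i * n₁ i = K)) → W j i = 0 := by
    intro j i hne
    rcases mul_eq_zero.1 (hWlev j i) with h8 | h8
    · exfalso
      apply hne
      have : l₀ j * l₁ j = n₀ i * n₁ i := by
        have := sub_eq_zero.1 h8
        exact_mod_cast this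
      rw [this]
    · exact h8
  obtain ⟨g1, -, g4, g5⟩ := level W F h1 h2 a b h3 (fun j => l₀ j * l₁ j = K)
    (fun i => n₀ i * n₁ i = K) hWsup hFlev hc
  -- coordinates on the hyperbola
  set D : ℝ := (ω₀ * star ω₁).im with hD
  have hD0 : D ≠ 0 := by
    intro h
    apply hne
    have e2 := im_combo ω₀ (star ω₁)
    rw [star_star, ← hD, h] at e2
    have e3 : ω₀ * star ω₁ - star ω₀ * ω₁ = 0 := by rw [← e2]; simp
    calc ω₀ ^ 2 = ω₀ ^ 2 * (star ω₁ * ω₁) := by rw [hω₁, mul_one]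
      _ = ω₀ * ω₁ * (ω₀ * star ω₁ - star ω₀ * ω₁) + ω₁ ^ 2 * (star ω₀ * ω₀) := by ring
      _ = ω₁ ^ 2 := by rw [e3, hω₀]; ring
  have hDc : (D : ℂ) ≠ 0 := by exact_mod_cast hD0
  have hrec : ∀ x : ℂ, ((ω₀ * x).im - k₀) * ((ω₁ * x).im - k₁) = K →
      (star ω₁ * k₀ - star ω₀ * k₁) * (D : ℂ)⁻¹
        + ((((ω₀ * x).im - k₀ : ℝ)) : ℂ) * (star ω₁ * (D : ℂ)⁻¹)
        + ((((ω₀ * x).im - k₀ : ℝ)) : ℂ)⁻¹ * (-(K : ℂ) * star ω₀ * (D : ℂ)⁻¹) = x := by
    intro x hx
    have hs : (ω₀ * x).im - k₀ ≠ 0 := by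
      intro h
      rw [h, zero_mul] at hx
      exact hK0 hx.symm
    have hsc : ((((ω₀ * x).im - k₀ : ℝ)) : ℂ) ≠ 0 := by exact_mod_cast hs
    have e1 := rec_coord ω₀ ω₁ x hD0
    rw [← hD] at e1
    conv_rhs => rw [e1]
    have e2 : ((((ω₁ * x).im : ℝ)) : ℂ) = k₁ + (K : ℂ) * ((((ω₀ * x).im - k₀ : ℝ)) : ℂ)⁻¹ := by
      have e3 : (ω₁ * x).im - k₁ = K * ((ω₀ * x).im - k₀)⁻¹ := by
        rw [← hx, mul_comm ((ω₀ * x).im - k₀), mul_assoc, mul_inv_cancel₀ hs, mul_one]
      have e4 : (ω₁ * x).im = k₁ + K * ((ω₀ * x).im - k₀)⁻¹ := by linarith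
      rw [e4]
      push_cast
      ring
    have e5 : ((((ω₀ * x).im : ℝ)) : ℂ) = k₀ + ((((ω₀ * x).im - k₀ : ℝ)) : ℂ) := by
      push_cast; ring
    rw [e2]
    conv_rhs => rw [e5]
    ring
  refine ⟨ms (fun i : {i // ¬ (n₀ i * n₁ i = K)} => a i),
    ms (fun i : {i // n₀ i * n₁ i = K} => n₀ i), ms (fun j : {j // l₀ j * l₁ j = K} => l₀ j),
    (star ω₁ * k₀ - star ω₀ * k₁) * (D : ℂ)⁻¹, star ω₁ * (D : ℂ)⁻¹,
    -(K : ℂ) * star ω₀ * (D : ℂ)⁻¹, ?_, ?_, ?_, ?_, ?_, ?_⟩
  · have e1 : star ω₁ * (D : ℂ)⁻¹ * star (-(K : ℂ) * star ω₀ * (D : ℂ)⁻¹)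
        = ((-K * (D⁻¹ * D⁻¹) : ℝ) : ℂ) * (ω₀ * star ω₁) := by
      have e2 : star (-(K : ℂ) * star ω₀ * (D : ℂ)⁻¹) = -(K : ℂ) * ω₀ * (D : ℂ)⁻¹ := by
        simp
      rw [e2]
      push_cast
      ring
    rw [e1, Complex.im_ofReal_mul, ← hD]
    have : D⁻¹ ≠ 0 := inv_ne_zero hD0
    exact mul_ne_zero (mul_ne_zero (neg_ne_zero.2 hK0) (mul_ne_zero this this)) hD0
  · intro hmem
    unfold ms at hmem
    rw [Multiset.mem_map] at hmem
    obtain ⟨i, -, hi⟩ := hmem
    have := i.2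
    rw [hi, zero_mul] at this
    exact hK0 this.symm
  · intro hmem
    unfold ms at hmem
    rw [Multiset.mem_map] at hmem
    obtain ⟨i, -, hi⟩ := hmem
    have := i.2
    rw [hi, zero_mul] at this
    exact hK0 this.symm
  · rw [ms_map, ms_split a (fun i => n₀ i * n₁ i = K)]
    congr 2
    funext i
    exact (hrec (a i) i.2).symm
  · rw [ms_map, ms_split b (fun j => l₀ j * l₁ j = K), g4]
    congr 2
    funext j
    exact (hrec (b j) j.2).symm
  · have hS : (0 : ℝ) ::ₘ ms (fun i : {i // n₀ i * n₁ i = K} => n₀ i)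
        = ms (Sum.elim (fun i : {i // n₀ i * n₁ i = K} => n₀ i) (fun _ : Unit => (0 : ℝ))) := by
      rw [ms_sum, ms_unit, add_comm]
      rfl
    rw [hS]
    let V : Matrix {j // l₀ j * l₁ j = K} ({i // n₀ i * n₁ i = K} ⊕ Unit) ℂ :=
      Matrix.of (fun j => Sum.elim (fun i => W j i) (fun _ => F j 0))
    have hVl : ∀ j i, V j (Sum.inl i) = W j i := fun j i => rfl
    have hVr : ∀ j i, V j (Sum.inr i) = F j 0 := fun j i => rfl
    have hsub := fun g => sum_sub (fun j : m => l₀ j * l₁ j = K) g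
    have hF0 : ∀ j, ¬ (l₀ j * l₁ j = K) → F j 0 = 0 := fun j hj => hFlev j 0 hj
    have hW0 : ∀ (i : {i // n₀ i * n₁ i = K}) j, ¬ (l₀ j * l₁ j = K) → W j i = 0 :=
      fun i j hj => hWsup j i (fun h => hj (h.2 i.2))
    have c1 : ∀ i : {i // n₀ i * n₁ i = K},
        ∑ j : {j // l₀ j * l₁ j = K}, star (W j i) * F j 0 = 0 := by
      intro i
      rw [hsub (fun j => star (W j i) * F j 0) (fun j hj => by rw [hF0 j hj, mul_zero]), hWF]
    have c2 : ∑ j : {j // l₀ j * l₁ j = K}, star (F j 0) * F j 0 = 1 := by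
      rw [hsub (fun j => star (F j 0) * F j 0) (fun j hj => by rw [hF0 j hj, mul_zero]), hFF]
      simp
    have c3 : ∀ i i' : {i // n₀ i * n₁ i = K},
        ∑ j : {j // l₀ j * l₁ j = K}, star (W j i) * (l₀ j : ℂ) * W j i'
          = if i = i' then (n₀ i : ℂ) else 0 := by
      intro i i'
      rw [hsub (fun j => star (W j i) * (l₀ j : ℂ) * W j i')
        (fun j hj => by rw [hW0 i' j hj, mul_zero])]
      have := congrFun (congrFun hN₀ i) i'
      rw [Matrix.mul_apply] at this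
      simp only [mul_diagonal, conjTranspose_apply, diagonal_apply] at this
      rw [this]
      by_cases h : i = i'
      · subst h; simp
      · have h' : (i : ι) ≠ i' := fun hh => h (Subtype.ext hh)
        rw [if_neg h, if_neg h']
    have c4 : ∀ i : {i // n₀ i * n₁ i = K},
        ∑ j : {j // l₀ j * l₁ j = K}, star (W j i) * (l₀ j : ℂ) * F j 0 = 0 := by
      intro i
      rw [hsub (fun j => star (W j i) * (l₀ j : ℂ) * F j 0)
        (fun j hj => by rw [hF0 j hj, mul_zero])]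
      rw [← hM₀ i]
      exact Finset.sum_congr rfl (fun j _ => by ring)
    have c5 : ∑ j : {j // l₀ j * l₁ j = K}, star (F j 0) * (l₀ j : ℂ) * F j 0 = 0 := by
      rw [hsub (fun j => star (F j 0) * (l₀ j : ℂ) * F j 0)
        (fun j hj => by rw [hF0 j hj, mul_zero])]
      have := hFF 0 1
      rw [if_neg (by decide)] at this
      calc ∑ j, star (F j 0) * (l₀ j : ℂ) * F j 0 = ∑ j, γ₀ * (star (F j 0) * F j 1) := by
            refine Finset.sum_congr rfl (fun j _ => ?_)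
            rw [mul_assoc, hl₀]; ring
        _ = 0 := by rw [← Finset.mul_sum, this, mul_zero]
    refine interlaces_of_isometry _ _ V ?_ ?_ ?_
    · ext i i'
      rw [Matrix.mul_apply, Matrix.one_apply]
      simp only [conjTranspose_apply]
      rcases i with i | i <;> rcases i' with i' | i'
      · simp only [hVl]
        rw [g1 i i']
        by_cases h : i = i'
        · subst h; simp
        · simp [h]
      · simp only [hVl, hVr]
        rw [c1 i]; simp
      · simp only [hVl, hVr]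
        have := congrArg star (c1 i')
        rw [star_sum, star_zero] at this
        rw [if_neg (by simp), ← this]
        refine Finset.sum_congr rfl (fun j _ => ?_)
        rw [star_mul, star_star]
      · simp only [hVr]
        rw [c2]; simp
    · ext i i'
      rw [Matrix.mul_apply]
      simp only [mul_diagonal, conjTranspose_apply, diagonal_apply]
      rcases i with i | i <;> rcases i' with i' | i'
      · simp only [hVl]
        rw [c3 i i']
        by_cases h : i = i'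
        · subst h; simp
        · simp [h]
      · simp only [hVl, hVr]
        rw [c4 i]; simp
      · simp only [hVl, hVr]
        have := congrArg star (c4 i')
        rw [star_sum, star_zero] at this
        rw [if_neg (by simp), ← this]
        refine Finset.sum_congr rfl (fun j _ => ?_)
        have h7 : star (l₀ j : ℂ) = (l₀ j : ℂ) := Complex.conj_ofReal _
        rw [star_mul, star_mul, star_star, h7]
        ring
      · simp only [hVr]
        rw [c5]; simp
    · rw [g5, Fintype.card_sum, Fintype.card_unit]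


/-- necessity in codimension two -/
theorem nec_two (a : ι → ℂ) (b : m → ℂ) (hD : Dil a b)
    (hc : Fintype.card m = Fintype.card ι + 2) :
    (∃ c : ι ⊕ Unit → ℂ, Dil a c ∧ Dil c b) ∨ OnHyperbola (ms a) (ms b) := by
  classical
  obtain ⟨W, h1, h3⟩ := hD
  obtain ⟨F₀, hF1₀, hF2₀, h2₀⟩ := complete W h1 2 hc
  obtain ⟨U, hU1, hU2, hU⟩ := exists_unitary _ _ (gram_eq W F₀ h2₀ a b h3)
  obtain ⟨Q, u, hQ1, hQ2, hQ3⟩ := normal_diag U (by rw [hU1, hU2])
  -- rotate the complement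
  obtain ⟨F, hF1, hF2, h2, hXY, hu⟩ : ∃ F : Matrix m (Fin 2) ℂ, Fᴴ * F = 1 ∧ Wᴴ * F = 0 ∧
      W * Wᴴ + F * Fᴴ = 1 ∧
      Wᴴ * (diagonal b)ᴴ * F = Wᴴ * diagonal b * F * diagonal u ∧ ∀ k, star (u k) * u k = 1 := by
    refine ⟨F₀ * Q, ?_, ?_, ?_, ?_, ?_⟩
    · rw [conjTranspose_mul]
      calc Qᴴ * F₀ᴴ * (F₀ * Q) = Qᴴ * (F₀ᴴ * F₀) * Q := by simp only [Matrix.mul_assoc]
        _ = 1 := by rw [hF1₀, Matrix.mul_one, hQ1]
    · rw [← Matrix.mul_assoc, hF2₀, Matrix.zero_mul]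
    · rw [conjTranspose_mul]
      calc W * Wᴴ + F₀ * Q * (Qᴴ * F₀ᴴ) = W * Wᴴ + F₀ * (Q * Qᴴ) * F₀ᴴ := by
            simp only [Matrix.mul_assoc]
        _ = 1 := by rw [hQ2, Matrix.mul_one, h2₀]
    · rw [← Matrix.mul_assoc, hU, Matrix.mul_assoc _ U Q, hQ3]
      simp only [Matrix.mul_assoc]
    · have e1 : diagonal u = Qᴴ * U * Q := by
        rw [Matrix.mul_assoc, hQ3, ← Matrix.mul_assoc, hQ1, Matrix.one_mul]
      have e2 : (diagonal u)ᴴ * diagonal u = 1 := by
        rw [e1]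
        simp only [conjTranspose_mul, conjTranspose_conjTranspose]
        calc Qᴴ * (Uᴴ * Q) * (Qᴴ * U * Q) = Qᴴ * (Uᴴ * (Q * Qᴴ) * U) * Q := by
              simp only [Matrix.mul_assoc]
          _ = 1 := by rw [hQ2, Matrix.mul_one, hU1, Matrix.mul_one, hQ1]
      intro k
      have := congrFun (congrFun e2 k) k
      rw [diagonal_conjTranspose, diagonal_mul_diagonal] at this
      simpa using this
  have hWF : ∀ (i : ι) (y : Fin 2), ∑ j, star (W j i) * F j y = 0 := by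
    intro i y
    have := congrFun (congrFun hF2 i) y
    simpa [Matrix.mul_apply] using this
  have hFF : ∀ x y : Fin 2, ∑ j, star (F j x) * F j y = if x = y then 1 else 0 := by
    intro x y
    have := congrFun (congrFun hF1 x) y
    simpa [Matrix.mul_apply, Matrix.one_apply] using this
  -- orthogonality in the distinguished directions
  have horth : ∀ (ω : ℂ) (k : Fin 2), ω ^ 2 = u k → star ω * ω = 1 → ∀ i,
      ∑ j, star (W j i) * ((((ω * b j).im : ℝ) : ℂ) * F j k) = 0 := by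
    intro ω k hω hω1 i
    have e1 : (Wᴴ * diagonal (fun j => (((ω * b j).im : ℝ) : ℂ)) * F) i k = 0 := by
      rw [diag_im]
      simp only [Matrix.mul_smul, Matrix.smul_mul, Matrix.mul_sub, Matrix.sub_mul]
      rw [hXY]
      simp only [Matrix.smul_apply, Matrix.sub_apply, mul_diagonal, smul_eq_mul]
      have : star ω * ω ^ 2 = ω := by rw [pow_two, ← mul_assoc, hω1, one_mul]
      rw [← hω]
      have e2 : ω * (Wᴴ * diagonal b * F) i k - star ω * ((Wᴴ * diagonal b * F) i k * ω ^ 2)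
          = (ω - star ω * ω ^ 2) * (Wᴴ * diagonal b * F) i k := by ring
      rw [e2, this, sub_self, zero_mul, mul_zero]
    rw [Matrix.mul_apply] at e1
    simp only [mul_diagonal, conjTranspose_apply] at e1
    rw [← e1]
    exact Finset.sum_congr rfl (fun j _ => by ring)
  by_cases huu : u 0 = u 1
  · -- parallel asymptotic directions: there is a chain
    left
    obtain ⟨ω, hω, hω1⟩ := exists_omega (u 0) (hu 0)
    let Λ : Matrix m m ℂ := diagonal (fun j => (((ω * b j).im : ℝ) : ℂ))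
    have hWΛF : Wᴴ * Λ * F = 0 := by
      ext i k
      have h4 : u k = u 0 := by fin_cases k; · rfl
                                · exact huu.symm
      have := horth ω k (by rw [hω, h4]) hω1 i
      rw [Matrix.mul_apply]
      simp only [Λ, mul_diagonal, conjTranspose_apply, Matrix.zero_apply]
      rw [← this]
      exact Finset.sum_congr rfl (fun j _ => by ring)
    have hΛ : Λᴴ = Λ := by
      simp only [Λ, diagonal_conjTranspose]
      congr 1
      funext j
      simp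
    let G : Matrix (Fin 2) (Fin 2) ℂ := Fᴴ * Λ * F
    have hG : G.IsHermitian := by
      unfold Matrix.IsHermitian
      simp only [G, conjTranspose_mul, conjTranspose_conjTranspose, hΛ, Matrix.mul_assoc]
    obtain ⟨P, l, hP1, hP2, hP3, -⟩ := herm_diag G hG
    have hΛF : Λ * F = F * G := by
      calc Λ * F = (W * Wᴴ + F * Fᴴ) * (Λ * F) := by rw [h2, Matrix.one_mul]
        _ = W * (Wᴴ * Λ * F) + F * (Fᴴ * Λ * F) := by
            rw [Matrix.add_mul]; simp only [Matrix.mul_assoc]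
        _ = F * G := by rw [hWΛF, Matrix.mul_zero, zero_add]
    have hΛFP : Λ * (F * P) = F * P * diagonal (fun i => (l i : ℂ)) := by
      rw [← Matrix.mul_assoc, hΛF, Matrix.mul_assoc, hP3]
      simp only [Matrix.mul_assoc]
    refine chain_cols W (F * P) h1 ?_ ?_ ?_ a b h3 ω hω1 (l 0) 0 1 (by decide) ?_
    · rw [conjTranspose_mul]
      calc Pᴴ * Fᴴ * (F * P) = Pᴴ * (Fᴴ * F) * P := by simp only [Matrix.mul_assoc]
        _ = 1 := by rw [hF1, Matrix.mul_one, hP1]
    · rw [← Matrix.mul_assoc, hF2, Matrix.zero_mul]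
    · rw [conjTranspose_mul]
      calc W * Wᴴ + F * P * (Pᴴ * Fᴴ) = W * Wᴴ + F * (P * Pᴴ) * Fᴴ := by
            simp only [Matrix.mul_assoc]
        _ = 1 := by rw [hP2, Matrix.mul_one, h2]
    · intro j
      have := congrFun (congrFun hΛFP j) 0
      simp only [Λ, diagonal_mul, mul_diagonal] at this
      rw [sub_mul, this]
      ring
  · -- distinct directions
    obtain ⟨ω₀, hω₀, hω₀1⟩ := exists_omega (u 0) (hu 0)
    obtain ⟨ω₁, hω₁, hω₁1⟩ := exists_omega (u 1) (hu 1)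
    let η₀ : m → ℝ := fun j => (ω₀ * b j).im
    let η₁ : m → ℝ := fun j => (ω₁ * b j).im
    -- expectation values
    have hreal : ∀ (η : m → ℝ) (k : Fin 2), ∑ j', star (F j' k) * ((η j' : ℂ) * F j' k)
        = ((∑ j', η j' * ‖F j' k‖ ^ 2 : ℝ) : ℂ) := by
      intro η k
      push_cast
      refine Finset.sum_congr rfl (fun j _ => ?_)
      have := Complex.conj_mul' (F j k)
      have h' : star (F j k) * F j k = (‖F j k‖ : ℂ) ^ 2 := by simpa using this
      calc star (F j k) * ((η j : ℂ) * F j k) = (η j : ℂ) * (star (F j k) * F j k) := by ring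
        _ = _ := by rw [h']
    set k₀ : ℝ := ∑ j', η₀ j' * ‖F j' 0‖ ^ 2 with hk₀
    set k₁ : ℝ := ∑ j', η₁ j' * ‖F j' 1‖ ^ 2 with hk₁
    set γ₀ : ℂ := ∑ j', star (F j' 1) * ((η₀ j' : ℂ) * F j' 0) with hγ₀
    set γ₁ : ℂ := ∑ j', star (F j' 0) * ((η₁ j' : ℂ) * F j' 1) with hγ₁
    have hE₀ : ∀ j, ((η₀ j : ℂ) - k₀) * F j 0 = γ₀ * F j 1 := by
      intro j
      have := expand W F h2 (fun j => (η₀ j : ℂ) * F j 0) (horth ω₀ 0 hω₀ hω₀1) j
      rw [hreal η₀ 0, ← hγ₀] at this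
      rw [sub_mul, this]
      ring
    have hE₁ : ∀ j, ((η₁ j : ℂ) - k₁) * F j 1 = γ₁ * F j 0 := by
      intro j
      have := expand W F h2 (fun j => (η₁ j : ℂ) * F j 1) (horth ω₁ 1 hω₁ hω₁1) j
      rw [hreal η₁ 1, ← hγ₁] at this
      rw [sub_mul, this]
      ring
    by_cases hγ₀z : γ₀ = 0
    · left
      refine chain_cols W F h1 hF1 hF2 h2 a b h3 ω₀ hω₀1 k₀ 0 1 (by decide) ?_
      intro j
      have := hE₀ j
      rw [hγ₀z, zero_mul] at this
      exact this
    by_cases hγ₁z : γ₁ = 0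
    · left
      refine chain_cols W F h1 hF1 hF2 h2 a b h3 ω₁ hω₁1 k₁ 1 0 (by decide) ?_
      intro j
      have := hE₁ j
      rw [hγ₁z, zero_mul] at this
      exact this
    right
    refine hyp_case W F h1 hF1 hF2 h2 a b h3 hc ω₀ ω₁ hω₀1 hω₁1 ?_ k₀ k₁ γ₀ γ₁ hγ₀z hγ₁z hE₀ hE₁
    rw [hω₀, hω₁]
    exact huu

end Pool.Agent.Helper45.NC
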