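import Mathlib
import Pool.Agent.Helper45.NC.ArrowMat

set_option autoImplicit false
open scoped Matrix

namespace Pool.Agent.Helper45.NC

open Matrix Finset

variable {ι : Type*} [Fintype ι] [DecidableEq ι]

/-- compression of affine functions on a line -/
theorem dil_line (s : ι → ℝ) (T : Multiset ℝ) (h : Interlaces T (ms s)) (z w : ℂ) :
    ∃ l : ι ⊕ Unit → ℝ, ms l = T ∧
      Dil (fun i => z + (s i : ℂ) * w) (fun j => z + (l j : ℂ) * w) := by
  classical
  obtain ⟨q, r, P, l, h1, h2, h3, h4⟩ := exists_arrow s T h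
  refine ⟨l, h4, ?_⟩
  let J : Matrix (ι ⊕ Unit) ι ℂ := (1 : Matrix (ι ⊕ Unit) (ι ⊕ Unit) ℂ).submatrix id Sum.inl
  have hJ : Jᴴ * J = 1 := by
    ext i j
    simp [J, Matrix.mul_apply, Matrix.one_apply]
  have hJN : Jᴴ * arrow s q r * J = diagonal (fun i => (s i : ℂ)) := by
    ext i j
    simp [J, Matrix.mul_apply, Matrix.one_apply, arrow]
  have hP : P * diagonal (fun i => (l i : ℂ)) * Pᴴ = arrow s q r := by
    rw [← h3, Matrix.mul_assoc, h2, Matrix.mul_one]
  let W : Matrix (ι ⊕ Unit) ι ℂ := Pᴴ * J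
  have hW : Wᴴ * W = 1 := by
    simp only [W, conjTranspose_mul, conjTranspose_conjTranspose]
    calc Jᴴ * P * (Pᴴ * J) = Jᴴ * (P * Pᴴ) * J := by simp only [Matrix.mul_assoc]
      _ = 1 := by rw [h2, Matrix.mul_one, hJ]
  have hWl : Wᴴ * diagonal (fun i => (l i : ℂ)) * W = diagonal (fun i => (s i : ℂ)) := by
    simp only [W, conjTranspose_mul, conjTranspose_conjTranspose]
    calc Jᴴ * P * diagonal (fun i => (l i : ℂ)) * (Pᴴ * J)
        = Jᴴ * (P * diagonal (fun i => (l i : ℂ)) * Pᴴ) * J := by simp only [Matrix.mul_assoc]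
      _ = _ := by rw [hP, hJN]
  refine ⟨W, hW, ?_⟩
  have e1 : diagonal (fun j => z + (l j : ℂ) * w)
      = z • (1 : Matrix (ι ⊕ Unit) (ι ⊕ Unit) ℂ) + w • diagonal (fun j => (l j : ℂ)) := by
    ext i j
    by_cases h : i = j
    · subst h; simp [mul_comm]
    · simp [h]
  have e2 : diagonal (fun j => z + (s j : ℂ) * w)
      = z • (1 : Matrix ι ι ℂ) + w • diagonal (fun j => (s j : ℂ)) := by
    ext i j
    by_cases h : i = j
    · subst h; simp [mul_comm]
    · simp [h]
  rw [e1, e2, Matrix.mul_add, Matrix.add_mul, Matrix.mul_smul, Matrix.smul_mul, Matrix.mul_smul,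
    Matrix.smul_mul, Matrix.mul_one, hW, hWl]

/-- compression along a hyperbola -/
theorem dil_hyp (s : ι → ℝ) (hs : ∀ i, s i ≠ 0) (T : Multiset ℝ) (hT : (0 : ℝ) ∉ T)
    (h : Interlaces T (0 ::ₘ ms s)) (z u v : ℂ) :
    ∃ l : (ι ⊕ Unit) ⊕ Unit → ℝ, ms l = T ∧
      Dil (fun i => z + (s i : ℂ) * u + (s i : ℂ)⁻¹ * v)
        (fun j => z + (l j : ℂ) * u + (l j : ℂ)⁻¹ * v) := by
  classical
  let s' : ι ⊕ Unit → ℝ := Sum.elim s (fun _ => 0)
  have hms : ms s' = 0 ::ₘ ms s := by
    simp only [s']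
    rw [ms_sum, ms_unit, add_comm, Multiset.singleton_add]
  obtain ⟨q, r, P, l, h1, h2, h3, h4⟩ := exists_arrow s' T (by rw [hms]; exact h)
  refine ⟨l, h4, ?_⟩
  have hl : ∀ j, l j ≠ 0 := by
    intro j hj
    apply hT
    rw [← h4, ← hj]
    exact Multiset.mem_map_of_mem l (Finset.mem_univ j)
  let J : Matrix ((ι ⊕ Unit) ⊕ Unit) ι ℂ :=
    (1 : Matrix ((ι ⊕ Unit) ⊕ Unit) ((ι ⊕ Unit) ⊕ Unit) ℂ).submatrix id (fun i => Sum.inl (Sum.inl i))
  have hJ : Jᴴ * J = 1 := by
    ext i j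
    simp [J, Matrix.mul_apply, Matrix.one_apply]
  have hJN : Jᴴ * arrow s' q r * J = diagonal (fun i => (s i : ℂ)) := by
    ext i j
    simp [J, Matrix.mul_apply, Matrix.one_apply, arrow, s', diagonal_apply]
  have hP : P * diagonal (fun i => (l i : ℂ)) * Pᴴ = arrow s' q r := by
    rw [← h3, Matrix.mul_assoc, h2, Matrix.mul_one]
  have hP' : Pᴴ * arrow s' q r = diagonal (fun i => (l i : ℂ)) * Pᴴ := by
    rw [← hP, Matrix.mul_assoc, ← Matrix.mul_assoc Pᴴ, h1, Matrix.one_mul]
  -- the border entry at the zero diagonal entry does not vanish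
  let f : (ι ⊕ Unit) ⊕ Unit := Sum.inl (Sum.inr ())
  have hβ : q (Sum.inr ()) ≠ 0 := by
    intro hq
    let e : (ι ⊕ Unit) ⊕ Unit → ℂ := Pi.single f 1
    have he : arrow s' q r *ᵥ e = 0 := by
      ext j
      simp only [e, mulVec_single_one, Matrix.col_apply, Pi.zero_apply]
      rcases j with (j | j) | j
      · simp [arrow, f]
      · simp [arrow, f, s']
      · simp [arrow, f, hq]
    have h5 : diagonal (fun i => (l i : ℂ)) *ᵥ (Pᴴ *ᵥ e) = 0 := by
      rw [mulVec_mulVec, ← hP', ← mulVec_mulVec, he, mulVec_zero]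
    have h6 : Pᴴ *ᵥ e = 0 := by
      ext j
      have := congrFun h5 j
      rw [mulVec_diagonal] at this
      rcases mul_eq_zero.1 this with h7 | h7
      · exact absurd (Complex.ofReal_eq_zero.1 h7) (hl j)
      · exact h7
    have h7 : e = 0 := by
      have : P *ᵥ (Pᴴ *ᵥ e) = e := by rw [mulVec_mulVec, h2, one_mulVec]
      rw [← this, h6, mulVec_zero]
    have h8 := congrFun h7 f
    simp [e] at h8
  let G : Matrix ((ι ⊕ Unit) ⊕ Unit) ι ℂ := Matrix.of (fun j i =>
    match j with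
    | Sum.inl (Sum.inl i') => if i' = i then (s i : ℂ)⁻¹ else 0
    | Sum.inl (Sum.inr _) => -((s i : ℂ)⁻¹ * (q (Sum.inl i) : ℂ) / (q (Sum.inr ()) : ℂ))
    | Sum.inr _ => 0)
  have hβ' : (q (Sum.inr ()) : ℂ) ≠ 0 := by exact_mod_cast hβ
  have hs' : ∀ i, (s i : ℂ) ≠ 0 := fun i => by exact_mod_cast hs i
  have hNG : arrow s' q r * G = J := by
    ext j i
    rw [Matrix.mul_apply]
    simp only [Fintype.sum_sum_type, Finset.univ_unique, Finset.sum_singleton]
    rcases j with (j | j) | j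
    · simp only [arrow, G, s', J, fromBlocks_apply₁₁, fromBlocks_apply₁₂, Matrix.of_apply,
        diagonal_apply, Sum.inl.injEq, reduceCtorEq, if_false, zero_mul, mul_zero, add_zero,
        submatrix_apply, id, Matrix.one_apply, ite_mul, Sum.elim_inl]
      rw [Finset.sum_ite_eq]
      simp only [Finset.mem_univ, if_true]
      by_cases hji : j = i
      · subst hji
        simp [hs' j]
      · simp [hji]
    · simp [arrow, G, s', J]
    · simp only [arrow, G, s', J, fromBlocks_apply₂₁, fromBlocks_apply₂₂, Matrix.of_apply,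
        reduceCtorEq, if_false, mul_zero, add_zero,
        submatrix_apply, id, Matrix.one_apply, mul_ite]
      rw [Finset.sum_ite_eq']
      simp only [Finset.mem_univ, if_true]
      rw [show (default : Unit) = () from rfl]
      field_simp
      ring
  have hinv : P * diagonal (fun i => (l i : ℂ)⁻¹) * Pᴴ * J = G := by
    rw [← hNG]
    calc P * diagonal (fun i => (l i : ℂ)⁻¹) * Pᴴ * (arrow s' q r * G)
        = P * diagonal (fun i => (l i : ℂ)⁻¹) * (Pᴴ * arrow s' q r) * G := by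
          simp only [Matrix.mul_assoc]
      _ = P * (diagonal (fun i => (l i : ℂ)⁻¹) * diagonal (fun i => (l i : ℂ))) * Pᴴ * G := by
          rw [hP']; simp only [Matrix.mul_assoc]
      _ = G := by
          rw [diagonal_mul_diagonal]
          have : (fun i => (l i : ℂ)⁻¹ * (l i : ℂ)) = fun _ => 1 := by
            funext i
            exact inv_mul_cancel₀ (by exact_mod_cast hl i)
          rw [this, diagonal_one, Matrix.mul_one, h2, Matrix.one_mul]
  have hJG : Jᴴ * G = diagonal (fun i => (s i : ℂ)⁻¹) := by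
    ext i j
    rw [Matrix.mul_apply]
    simp only [J, conjTranspose_apply, submatrix_apply, id, Matrix.one_apply, diagonal_apply]
    rw [Finset.sum_eq_single (Sum.inl (Sum.inl i))]
    · simp only [G, Matrix.of_apply, if_true, star_one, one_mul]
      by_cases hij : i = j
      · subst hij; simp
      · simp [hij]
    · intro b _ hb
      simp [hb]
    · simp
  let W : Matrix ((ι ⊕ Unit) ⊕ Unit) ι ℂ := Pᴴ * J
  have hW : Wᴴ * W = 1 := by
    simp only [W, conjTranspose_mul, conjTranspose_conjTranspose]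
    calc Jᴴ * P * (Pᴴ * J) = Jᴴ * (P * Pᴴ) * J := by simp only [Matrix.mul_assoc]
      _ = 1 := by rw [h2, Matrix.mul_one, hJ]
  have hWl : Wᴴ * diagonal (fun i => (l i : ℂ)) * W = diagonal (fun i => (s i : ℂ)) := by
    simp only [W, conjTranspose_mul, conjTranspose_conjTranspose]
    calc Jᴴ * P * diagonal (fun i => (l i : ℂ)) * (Pᴴ * J)
        = Jᴴ * (P * diagonal (fun i => (l i : ℂ)) * Pᴴ) * J := by simp only [Matrix.mul_assoc]
      _ = _ := by rw [hP, hJN]
  have hWl' : Wᴴ * diagonal (fun i => (l i : ℂ)⁻¹) * W = diagonal (fun i => (s i : ℂ)⁻¹) := by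
    simp only [W, conjTranspose_mul, conjTranspose_conjTranspose]
    calc Jᴴ * P * diagonal (fun i => (l i : ℂ)⁻¹) * (Pᴴ * J)
        = Jᴴ * (P * diagonal (fun i => (l i : ℂ)⁻¹) * Pᴴ * J) := by simp only [Matrix.mul_assoc]
      _ = _ := by rw [hinv, hJG]
  refine ⟨W, hW, ?_⟩
  have e1 : diagonal (fun j => z + (l j : ℂ) * u + (l j : ℂ)⁻¹ * v)
      = z • (1 : Matrix ((ι ⊕ Unit) ⊕ Unit) ((ι ⊕ Unit) ⊕ Unit) ℂ)
        + u • diagonal (fun j => (l j : ℂ)) + v • diagonal (fun j => (l j : ℂ)⁻¹) := by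
    ext i j
    by_cases h : i = j
    · subst h; simp [mul_comm]
    · simp [h]
  have e2 : diagonal (fun j => z + (s j : ℂ) * u + (s j : ℂ)⁻¹ * v)
      = z • (1 : Matrix ι ι ℂ) + u • diagonal (fun j => (s j : ℂ))
        + v • diagonal (fun j => (s j : ℂ)⁻¹) := by
    ext i j
    by_cases h : i = j
    · subst h; simp [mul_comm]
    · simp [h]
  rw [e1, e2, Matrix.mul_add, Matrix.add_mul, Matrix.mul_add, Matrix.add_mul, Matrix.mul_smul,
    Matrix.smul_mul, Matrix.mul_smul, Matrix.smul_mul, Matrix.mul_smul, Matrix.smul_mul,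
    Matrix.mul_one, hW, hWl, hWl']

end Pool.Agent.Helper45.NC
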