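import Mathlib
import Pool.Agent.Helper45.NC.NecTwo
import Pool.Agent.Helper45.NC.Suff

set_option autoImplicit false
open scoped Matrix

namespace Pool.Agent.Helper45.NC

open Matrix Finset

variable {ι m κ : Type*} [Fintype ι] [Fintype m] [DecidableEq ι] [DecidableEq m]
  [Fintype κ] [DecidableEq κ]

/-- compression of normal matrices at the level of eigenvalue multisets -/
def MDil (α β : Multiset ℂ) : Prop :=
  ∃ (p q : ℕ) (a : Fin p → ℂ) (b : Fin q → ℂ), ms a = α ∧ ms b = β ∧ Dil a b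

theorem MDil.of_dil {a : ι → ℂ} {b : m → ℂ} (h : Dil a b) : MDil (ms a) (ms b) := by
  obtain ⟨a', ha⟩ := exists_ms (ms a)
  obtain ⟨b', hb⟩ := exists_ms (ms b)
  exact ⟨_, _, a', b', ha, hb, h.congr ha hb.symm⟩

theorem MDil.dil {a : ι → ℂ} {b : m → ℂ} (h : MDil (ms a) (ms b)) : Dil a b := by
  obtain ⟨p, q, a', b', ha, hb, h⟩ := h
  exact h.congr ha.symm hb

theorem MDil.trans {α β γ : Multiset ℂ} (h1 : MDil α γ) (h2 : MDil γ β) : MDil α β := by
  obtain ⟨p, q, a, c, rfl, rfl, h1⟩ := h1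
  obtain ⟨p', q', c', b, hc, rfl, h2⟩ := h2
  exact ⟨_, _, a, b, rfl, rfl, h1.trans (h2.congr hc.symm rfl)⟩

theorem MDil.add {α β α' β' : Multiset ℂ} (h1 : MDil α β) (h2 : MDil α' β') :
    MDil (α + α') (β + β') := by
  obtain ⟨p, q, a, b, rfl, rfl, h1⟩ := h1
  obtain ⟨p', q', a', b', rfl, rfl, h2⟩ := h2
  rw [← ms_sum, ← ms_sum]
  exact MDil.of_dil (h1.sum h2)

theorem MDil.refl (α : Multiset ℂ) : MDil α α := by
  obtain ⟨a, ha⟩ := exists_ms α
  rw [← ha]
  exact MDil.of_dil (Dil.refl a)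

theorem OnLine.mdil {α β : Multiset ℂ} (h : OnLine α β) : MDil α β := by
  obtain ⟨δ, S, T, z, w, -, rfl, rfl, h⟩ := h
  refine MDil.add (MDil.refl δ) ?_
  obtain ⟨s, hs⟩ := exists_ms S
  obtain ⟨l, hl, hd⟩ := dil_line s T (by rw [hs]; exact h) z w
  rw [← hs, ← hl, ms_map, ms_map]
  exact MDil.of_dil hd

theorem OnHyperbola.mdil {α β : Multiset ℂ} (h : OnHyperbola α β) : MDil α β := by
  obtain ⟨δ, S, T, z, u, v, -, hS, hT, rfl, rfl, h⟩ := h
  refine MDil.add (MDil.refl δ) ?_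
  obtain ⟨s, hs⟩ := exists_ms S
  have hs0 : ∀ i, s i ≠ 0 := by
    intro i hi
    apply hS
    rw [← hs]
    unfold ms
    rw [Multiset.mem_map]
    exact ⟨i, Finset.mem_univ i, hi⟩
  obtain ⟨l, hl, hd⟩ := dil_hyp s hs0 T hT (by rw [hs]; exact h) z u v
  rw [← hs, ← hl, ms_map, ms_map]
  exact MDil.of_dil hd

/-- codimension one, both directions -/
theorem dil_one_iff (a : ι → ℂ) (b : m → ℂ) (hc : Fintype.card m = Fintype.card ι + 1) :
    Dil a b ↔ OnLine (ms a) (ms b) :=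
  ⟨fun h => nec_one a b h hc, fun h => h.mdil.dil⟩

/-- codimension two, both directions -/
theorem dil_two_iff (a : ι → ℂ) (b : m → ℂ) (hc : Fintype.card m = Fintype.card ι + 2) :
    Dil a b ↔ (∃ γ : Multiset ℂ, OnLine (ms a) γ ∧ OnLine γ (ms b)) ∨ OnHyperbola (ms a) (ms b) := by
  constructor
  · intro h
    rcases nec_two a b h hc with ⟨c, h1, h2⟩ | h
    · left
      refine ⟨ms c, ?_, ?_⟩
      · exact nec_one a c h1 (by simp)
      · exact nec_one c b h2 (by rw [hc]; simp)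
    · right
      exact h
  · rintro (⟨γ, h1, h2⟩ | h)
    · exact (h1.mdil.trans h2.mdil).dil
    · exact h.mdil.dil

theorem diag_normal {n : Type*} [Fintype n] [DecidableEq n] (f : n → ℂ) :
    (diagonal f)ᴴ * diagonal f = diagonal f * (diagonal f)ᴴ := by
  rw [diagonal_conjTranspose, diagonal_mul_diagonal, diagonal_mul_diagonal]
  congr 1
  funext i
  exact mul_comm _ _

open Polynomial in
theorem ms_of_charpoly {n : Type*} [Fintype n] [DecidableEq n] (M S : Matrix n n ℂ)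
    (f g : n → ℂ) (h1 : Sᴴ * S = 1) (h2 : S * Sᴴ = 1) (h3 : M * S = S * diagonal f)
    (h4 : M.charpoly = ∏ i, (X - C (g i))) : ms g = ms f := by
  have h5 : Sᴴ * M * S = diagonal f := by
    rw [Matrix.mul_assoc, h3, ← Matrix.mul_assoc, h1, Matrix.one_mul]
  have h6 : (diagonal f).charpoly = M.charpoly := by
    rw [← h5, Matrix.charpoly_mul_comm, ← Matrix.mul_assoc, h2, Matrix.one_mul]
  rw [h4, charpoly_diagonal] at h6
  have h7 := congrArg Polynomial.roots h6
  rw [roots_prod_ms, roots_prod_ms] at h7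
  exact h7.symm

open Polynomial in
/-- translation between normal compressions and isometries of diagonal matrices -/
theorem realizable_iff (a : ι → ℂ) (b : m → ℂ) :
    (∃ (A : Matrix ι ι ℂ) (B : Matrix m m ℂ) (V : Matrix m ι ℂ),
      Aᴴ * A = A * Aᴴ ∧ Bᴴ * B = B * Bᴴ ∧ Vᴴ * V = 1 ∧ A = Vᴴ * B * V ∧
      A.charpoly = ∏ i, (X - C (a i)) ∧ B.charpoly = ∏ j, (X - C (b j))) ↔ Dil a b := by
  constructor
  · rintro ⟨A, B, V, hA, hB, hV, hAB, hca, hcb⟩
    obtain ⟨U, d, hU1, hU2, hU⟩ := normal_diag A hA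
    obtain ⟨R, e, hR1, hR2, hR⟩ := normal_diag B hB
    have hAd : Uᴴ * A * U = diagonal d := by
      rw [Matrix.mul_assoc, hU, ← Matrix.mul_assoc, hU1, Matrix.one_mul]
    have hBe : B = R * diagonal e * Rᴴ := by
      rw [← hR, Matrix.mul_assoc, hR2, Matrix.mul_one]
    have ha : ms a = ms d := ms_of_charpoly A U d a hU1 hU2 hU hca
    have hb : ms b = ms e := ms_of_charpoly B R e b hR1 hR2 hR hcb
    have hD : Dil d e := by
      refine ⟨Rᴴ * V * U, ?_, ?_⟩
      · simp only [conjTranspose_mul, conjTranspose_conjTranspose]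
        calc Uᴴ * (Vᴴ * R) * (Rᴴ * V * U) = Uᴴ * (Vᴴ * (R * Rᴴ) * V) * U := by
              simp only [Matrix.mul_assoc]
          _ = 1 := by rw [hR2, Matrix.mul_one, hV, Matrix.mul_one, hU1]
      · simp only [conjTranspose_mul, conjTranspose_conjTranspose]
        calc Uᴴ * (Vᴴ * R) * diagonal e * (Rᴴ * V * U)
            = Uᴴ * (Vᴴ * (R * diagonal e * Rᴴ) * V) * U := by simp only [Matrix.mul_assoc]
          _ = diagonal d := by rw [← hBe, ← hAB, hAd]
    exact hD.congr ha hb.symm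
  · rintro ⟨W, h1, h2⟩
    refine ⟨diagonal a, diagonal b, W, diag_normal a, diag_normal b, h1, h2.symm, ?_, ?_⟩
    · rw [charpoly_diagonal]
    · rw [charpoly_diagonal]

end Pool.Agent.Helper45.NC
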